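import Mathlib

/-!
# Products of distinct linear forms are not squares
-/

set_option autoImplicit false
set_option linter.all false

open Polynomial

namespace Pool.Agent.R410.BA

section
variable {F V : Type} [Field F] [Field V] [Algebra F V] {w : V}

/-- every element of `F(w)` is a fraction -/
def Gen (F : Type) {V : Type} [Field F] [Field V] [Algebra F V] (w : V) : Prop :=
  ∀ z : V, ∃ p q : F[X], aeval w q ≠ 0 ∧ z * aeval w q = aeval w p

theorem gen_of_mem {K : Type} [Field K] [Algebra F K] (t : K) {z : K}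
    (hz : z ∈ IntermediateField.adjoin F {t}) :
    ∃ p q : F[X], aeval t q ≠ 0 ∧ z * aeval t q = aeval t p := by
  obtain ⟨r, s, rfl⟩ := (IntermediateField.mem_adjoin_simple_iff F z).1 hz
  by_cases hs : aeval t s = 0
  · refine ⟨0, 1, by simp, ?_⟩
    rw [hs, div_zero, zero_mul, map_zero]
  · exact ⟨r, s, hs, div_mul_cancel₀ _ hs⟩

theorem gen_top {t : V} (h : IntermediateField.adjoin F {t} = ⊤) : Gen F t := fun z =>
  gen_of_mem t (by rw [h]; trivial)

theorem gen_gen {K : Type} [Field K] [Algebra F K] (t : K) :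
    Gen F (IntermediateField.AdjoinSimple.gen F t) := by
  intro z
  obtain ⟨p, q, h1, h2⟩ := gen_of_mem t z.2
  have e : ∀ p : F[X], ((aeval (IntermediateField.AdjoinSimple.gen F t) p :
      IntermediateField.adjoin F {t}) : K) = aeval t p := by
    intro p
    rw [← IntermediateField.algebraMap_apply, ← aeval_algebraMap_apply,
      IntermediateField.AdjoinSimple.algebraMap_gen]
  refine ⟨p, q, fun h => h1 ?_, Subtype.ext ?_⟩
  · rw [← e, h]
    rfl
  · show (z : K) * _ = _
    rw [e, e, h2]

theorem ns (hw : Transcendental F w) (hV : Gen F w) {r : ℕ} {c : Fin r → F}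
    (hc : Function.Injective c) (S : Finset (Fin r)) (hS : S.Nonempty) :
    ¬ IsSquare (∏ i ∈ S, (algebraMap F V (c i) + w)) := by
  classical
  rintro ⟨v, hv⟩
  obtain ⟨p, q, hq, hpq⟩ := hV v
  set D : F[X] := ∏ i ∈ S, (X - C (-c i)) with hD
  have hDe : aeval w D = ∏ i ∈ S, (algebraMap F V (c i) + w) := by
    rw [hD, map_prod]
    refine Finset.prod_congr rfl fun i _ => ?_
    rw [map_sub, aeval_X, aeval_C, map_neg]
    ring
  have h1 : D * q ^ 2 = p ^ 2 := by
    apply transcendental_iff_injective.1 hw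
    rw [map_mul, map_pow, map_pow, hDe, hv, ← hpq]
    ring
  have hq0 : q ≠ 0 := by
    rintro rfl
    exact hq (map_zero _)
  have hD0 : D ≠ 0 := Finset.prod_ne_zero_iff.2 fun i _ => X_sub_C_ne_zero _
  obtain ⟨i, hi⟩ := hS
  have h2 := congrArg (rootMultiplicity (-c i)) h1
  have hp0 : p ^ 2 ≠ 0 := by
    rw [← h1]
    exact mul_ne_zero hD0 (pow_ne_zero _ hq0)
  have hp : p ≠ 0 := fun h => hp0 (by rw [h]; ring)
  have hDm : rootMultiplicity (-c i) D = 1 := by
    have h3 : D = (X - C (-c i)) * ∏ j ∈ S.erase i, (X - C (-c j)) := by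
      rw [hD]
      exact (Finset.mul_prod_erase S (fun j => X - C (-c j)) hi).symm
    have h4 : rootMultiplicity (-c i) (∏ j ∈ S.erase i, (X - C (-c j))) = 0 := by
      rw [rootMultiplicity_eq_zero_iff]
      intro h5
      rw [IsRoot.def, eval_prod, Finset.prod_eq_zero_iff] at h5
      obtain ⟨j, hj, h6⟩ := h5
      rw [eval_sub, eval_X, eval_C, sub_eq_zero, neg_inj] at h6
      exact absurd (hc h6).symm (Finset.ne_of_mem_erase hj)
    rw [h3, rootMultiplicity_mul (by rw [← h3]; exact hD0), rootMultiplicity_X_sub_C_self, h4]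
  rw [rootMultiplicity_mul (mul_ne_zero hD0 (pow_ne_zero _ hq0)), hDm, pow_two, pow_two,
    rootMultiplicity_mul (mul_ne_zero hq0 hq0), rootMultiplicity_mul (mul_ne_zero hp hp)] at h2
  omega

end

end Pool.Agent.R410.BA
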