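import Pool.Agent.Y707.DK.Cls
import Pool.Agent.Y707.DK.Reg
import Pool.Agent.Y707.DP.Base
import Pool.Agent.R410.BS.Sm
import Pool.Agent.R410.BA.Ns

/-!
# The group of points of `Y² = D(X) + t²` over `F(t)`
-/

set_option autoImplicit false
set_option linter.all false
set_option maxHeartbeats 400000

namespace Pool.Agent.R410.BA

open Polynomial Pool.Agent.TH943.HJ Pool.Agent.Y707.PC Pool.Agent.Y707.DK
open Pool.Agent.R410.BS (cub cub_Δ cub_map)

section
variable {M L : Type} [Field M] [Field L] [Algebra M L] {ω : L} {ι : Type} [Fintype ι] {φ : ι → M[X]}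

theorem class_top (h2 : (2 : L) ≠ 0) (hω : Transcendental M ω)
    (hL : ∀ z : L, ∃ p q : M[X], aeval ω q ≠ 0 ∧ z * aeval ω q = aeval ω p)
    (hφ : ∀ i, Irreducible (φ i)) (hm : ∀ i, (φ i).Monic) (hinj : Function.Injective φ)
    (hD : (∏ i, φ i).natDegree = 3) [hded : IsDedekindDomain (CR (gg ω (∏ i, φ i) 0))]
    (H : Subgroup (ClassGroup (CR (gg ω (∏ i, φ i) 0))))
    (hne : ∀ i, (up (φ i) : L[X]) ≠ 0)
    (hH : ∀ i, (φ i).natDegree = 1 →
      cls (gg ω (∏ i, φ i) 0) (up (φ i)) (cc ω (0 : M[X])) (hne i) ∈ H) : H = ⊤ := by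
  classical
  have hodd : Odd (∏ i, φ i).natDegree := by rw [hD]; decide
  have hb : 2 * (0 : M[X]).natDegree < (∏ i, φ i).natDegree := by rw [hD, natDegree_zero]; norm_num
  have hcopL : ∀ i j, i ≠ j → IsCoprime (up (φ i) : L[X]) (up (φ j)) := by
    intro i j hij
    exact (cop_phi hφ hm hinj hij).map (mapRingHom (algebraMap M L))
  let cl : ι → ClassGroup (CR (gg ω (∏ i, φ i) 0)) := fun i =>
    cls (gg ω (∏ i, φ i) 0) (up (φ i)) (cc ω (0 : M[X])) (hne i)
  have hrel : ∏ i, cl i = 1 := by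
    have h3 : ∏ i, cl i = ClassGroup.mk0 (∏ i, idl (gg ω (∏ i, φ i) 0) (up (φ i)) (cc ω (0 : M[X]))
        (hne i)) := (map_prod _ _ _).symm
    rw [h3, ClassGroup.mk0_eq_one_iff]
    have h4 : ((∏ i, idl (gg ω (∏ i, φ i) 0) (up (φ i)) (cc ω (0 : M[X])) (hne i) :
        nonZeroDivisors (Ideal (CR (gg ω (∏ i, φ i) 0)))) : Ideal (CR (gg ω (∏ i, φ i) 0))) =
        ∏ i, pid (gg ω (∏ i, φ i) 0) (up (φ i)) (cc ω (0 : M[X])) := by
      rw [Submonoid.coe_finsetProd]
      rfl
    rw [h4, pid_prod _ _ _ hcopL, ← up_prod]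
    refine ⟨⟨sg (∏ i, φ i) 0 ω, ?_⟩⟩
    rw [Ideal.submodule_span_eq]
    apply le_antisymm
    · unfold pid
      rw [Ideal.span_le]
      rintro z (rfl | rfl)
      · rw [← sg_ta]
        exact Ideal.mul_mem_right _ _ (Ideal.mem_span_singleton_self _)
      · exact Ideal.mem_span_singleton_self _
    · rw [Ideal.span_singleton_le_iff_mem]
      exact yy_mem_pid _ _
  have hpos : ∀ i, 0 < (φ i).natDegree := fun i => (hφ i).natDegree_pos
  have hsum : ∑ i, (φ i).natDegree = 3 := by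
    rw [← hD, natDegree_prod_of_monic _ _ fun i _ => hm i]
  have hall : ∀ i, cl i ∈ H := by
    intro i
    by_cases hi : (φ i).natDegree = 1
    · exact hH i hi
    · have hoth : ∀ j ∈ Finset.univ.erase i, cl j ∈ H := by
        intro j hj
        refine hH j ?_
        have hij : j ≠ i := Finset.ne_of_mem_erase hj
        have h5 : (φ i).natDegree + (φ j).natDegree ≤ 3 := by
          rw [← hsum]
          have h6 : ∑ k ∈ ({i, j} : Finset ι), (φ k).natDegree = (φ i).natDegree + (φ j).natDegree := by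
            rw [Finset.sum_pair hij.symm]
          rw [← h6]
          exact Finset.sum_le_sum_of_subset (Finset.subset_univ _)
        have := hpos i
        have := hpos j
        omega
      have h7 : cl i * ∏ j ∈ Finset.univ.erase i, cl j = 1 := by
        rw [Finset.mul_prod_erase _ _ (Finset.mem_univ i), hrel]
      rw [eq_inv_of_mul_eq_one_left h7]
      exact H.inv_mem (H.prod_mem hoth)
  apply gen2 h2 hω hL hodd hb
  intro 𝔭 h0 hp hmem
  have h3 : (pp (up (∏ i, φ i)) : CR (gg ω (∏ i, φ i) 0)) ∈ 𝔭 := by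
    rw [← sg_ta]
    exact 𝔭.mul_mem_right _ hmem
  rw [up_prod, map_prod] at h3
  obtain ⟨i, -, hi⟩ := (hp.prod_mem_iff).1 h3
  have h4 := prime_over (irr_up hω hL (hφ i) (hm i)) hp hi hmem
  have e : (⟨𝔭, h0⟩ : nonZeroDivisors (Ideal (CR (gg ω (∏ i, φ i) 0)))) =
      idl (gg ω (∏ i, φ i) 0) (up (φ i)) (cc ω (0 : M[X])) (hne i) := Subtype.ext h4
  rw [e]
  exact hall i

end

section
variable {L : Type} [Field L]

theorem monic_cubic (c : L[X]) (hc : c.Monic) (hd : c.natDegree = 3) :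
    c = X ^ 3 + C (c.coeff 2) * X ^ 2 + C (c.coeff 1) * X + C (c.coeff 0) := by
  have hc3 : c.coeff 3 = 1 := by rw [← hd]; exact hc
  conv_lhs => rw [c.as_sum_range_C_mul_X_pow, hd]
  rw [Finset.sum_range_succ, Finset.sum_range_succ, Finset.sum_range_succ, Finset.sum_range_one, hc3]
  simp only [C_1, pow_zero, pow_one]
  ring

theorem cub_poly (c : L[X]) (hc : c.Monic) (hd : c.natDegree = 3) (w : L) :
    (cub c w).toAffine.polynomial = X ^ 2 - C (c + C w) := by
  have h1 : c + C w = X ^ 3 + C (c.coeff 2) * X ^ 2 + C (c.coeff 1) * X + C (c.coeff 0 + w) := by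
    conv_lhs => rw [monic_cubic c hc hd]
    rw [C_add]
    ring
  rw [h1]
  unfold WeierstrassCurve.Affine.polynomial cub
  simp only [C_0, zero_mul, add_zero]

variable {W : WeierstrassCurve L}

theorem toClass_mk0 [DecidableEq L] [IsDedekindDomain W.toAffine.CoordinateRing] {x y : L}
    (h : W.toAffine.Nonsingular x y)
    (hI : WeierstrassCurve.Affine.CoordinateRing.XYIdeal W.toAffine x (C y) ∈
      nonZeroDivisors (Ideal W.toAffine.CoordinateRing)) :
    WeierstrassCurve.Affine.Point.toClass (WeierstrassCurve.Affine.Point.some _ _ h) =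
      Additive.ofMul (ClassGroup.mk0 ⟨_, hI⟩) := by
  rw [WeierstrassCurve.Affine.Point.toClass_some]
  show ClassGroup.mk W.toAffine.FunctionField _ = ClassGroup.mk0 _
  rw [← ClassGroup.mk_mk0 W.toAffine.FunctionField]
  congr 1
  apply Units.ext
  rw [WeierstrassCurve.Affine.CoordinateRing.XYIdeal'_eq, FractionalIdeal.coe_mk0]

end

end Pool.Agent.R410.BA
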