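import Pool.Agent.R410.BA.Cls

/-!
# The group of points of `Y² = D(X) + t²` over `F(t)`: the theorem
-/

set_option autoImplicit false
set_option linter.all false
set_option maxHeartbeats 400000

namespace Pool.Agent.R410.BA

open Polynomial Pool.Agent.TH943.HJ Pool.Agent.Y707.PC Pool.Agent.Y707.DK
open Pool.Agent.R410.BS (cub cub_Δ cub_map)
open WeierstrassCurve WeierstrassCurve.Affine

section
variable {M L : Type} [Field M] [Field L] [Algebra M L] {ω : L} {ι : Type} [Fintype ι] {φ : ι → M[X]}

theorem gg_zero (D : M[X]) : gg ω D 0 = up D + C (ω ^ 2) := by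
  unfold gg cc
  have : (up (0 : M[X]) : L[X]) = 0 := Polynomial.map_zero _
  rw [this, add_zero, C_pow]

/-- **The group of points of `Y² = D(X) + t²` over `F(t)`** is free of rank one less than the number of
the irreducible factors of `D`. -/
theorem points_free [CharZero M] [DecidableEq L] (hω : Transcendental M ω) (hL : Gen M ω)
    (hφ : ∀ i, Irreducible (φ i)) (hm : ∀ i, (φ i).Monic) (hinj : Function.Injective φ)
    (hD : (∏ i, φ i).natDegree = 3) :
    Module.Free ℤ (cub (up (∏ i, φ i)) (ω ^ 2) : WeierstrassCurve L).toAffine.Point ∧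
    Module.Finite ℤ (cub (up (∏ i, φ i)) (ω ^ 2) : WeierstrassCurve L).toAffine.Point ∧
    Module.finrank ℤ (cub (up (∏ i, φ i)) (ω ^ 2) : WeierstrassCurve L).toAffine.Point =
      Fintype.card ι - 1 := by
  classical
  have hcL : CharZero L := charZero_of_injective_algebraMap (algebraMap M L).injective
  have h2 : (2 : L) ≠ 0 := two_ne_zero
  have hodd : Odd (∏ i, φ i).natDegree := by rw [hD]; decide
  have hb : 2 * (0 : M[X]).natDegree < (∏ i, φ i).natDegree := by rw [hD, natDegree_zero]; norm_num
  have hDm : (∏ i, φ i).Monic := monic_prod_of_monic _ _ fun i _ => hm i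
  have hsq : Squarefree (gg ω (∏ i, φ i) 0) := (sep_gg hω hodd hb).squarefree
  have hoddg : Odd (gg ω (∏ i, φ i) 0).natDegree := (deg_gg hodd hb).1
  obtain ⟨g, hg⟩ : ∃ g, g = gg ω (∏ i, φ i) 0 := ⟨_, rfl⟩
  set W : WeierstrassCurve L := cub (up (∏ i, φ i)) (ω ^ 2) with hW
  have hupm : (up (∏ i, φ i) : L[X]).Monic := hDm.map _
  have hupd : (up (∏ i, φ i) : L[X]).natDegree = 3 := by
    rw [← hD]
    exact hDm.natDegree_map _
  have hpoly : W.toAffine.polynomial = X ^ 2 - C (gg ω (∏ i, φ i) 0) := by
    rw [hW, cub_poly _ hupm hupd, gg_zero]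
  have hne : ∀ i, (up (φ i) : L[X]) ≠ 0 := fun i => ((hm i).map _).ne_zero
  -- transport to the ring of the curve
  have key : ∀ p : L[X][X], p = X ^ 2 - C (gg ω (∏ i, φ i) 0) → IsDedekindDomain (AdjoinRoot p) ∧
      (∀ [IsDomain (AdjoinRoot p)], Module.Free ℤ (Additive (ClassGroup (AdjoinRoot p))) ∧
        Module.Finite ℤ (Additive (ClassGroup (AdjoinRoot p))) ∧
        Module.finrank ℤ (Additive (ClassGroup (AdjoinRoot p))) = Fintype.card ι - 1) ∧
      (∀ [IsDomain (AdjoinRoot p)] [IsDedekindDomain (AdjoinRoot p)]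
        (H : Subgroup (ClassGroup (AdjoinRoot p))), (∀ i, (φ i).natDegree = 1 →
          ∀ (I : Ideal (AdjoinRoot p)) (hI : I ∈ nonZeroDivisors (Ideal (AdjoinRoot p))),
            I = Ideal.span {AdjoinRoot.mk p (C (up (φ i))), AdjoinRoot.mk p (X - C (C ω))} →
              ClassGroup.mk0 ⟨I, hI⟩ ∈ H) → H = ⊤) := by
    rintro p rfl
    have hded : IsDedekindDomain (CR (gg ω (∏ i, φ i) 0)) := dedekind h2 hoddg hsq
    refine ⟨hded, ?_, ?_⟩
    · intro hdom
      exact alg_quad h2 hω hL hφ hm hinj hodd hb hsq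
    · intro _ _ H hH
      refine class_top h2 hω hL hφ hm hinj hD H hne fun i hi => ?_
      refine hH i hi (pid (gg ω (∏ i, φ i) 0) (up (φ i)) (cc ω (0 : M[X]))) _ ?_
      have hcc : cc ω (0 : M[X]) = C ω := by
        unfold cc
        rw [show (up (0 : M[X]) : L[X]) = 0 from Polynomial.map_zero _, add_zero]
      unfold pid
      rw [hcc, map_sub]
      rfl
  obtain ⟨k1, k2, k3⟩ := key W.toAffine.polynomial hpoly
  have hded : IsDedekindDomain W.toAffine.CoordinateRing := k1
  obtain ⟨c1, c2, c3⟩ := k2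
  let Hs : Subgroup (ClassGroup W.toAffine.CoordinateRing) :=
    AddSubgroup.toSubgroup' (Point.toClass (W := W.toAffine)).range
  have hmemHs : ∀ x, x ∈ Hs ↔ Additive.ofMul x ∈ (Point.toClass (W := W.toAffine)).range := fun x =>
    Iff.rfl
  have hω0 : ω ≠ 0 := by
    rintro rfl
    exact hω (isAlgebraic_zero)
  have htop : Hs = ⊤ := by
    refine k3 Hs fun i hi I hI hIe => ?_
    obtain ⟨α, hα⟩ : ∃ α : M, φ i = X - C α := by
      refine ⟨-(φ i).coeff 0, ?_⟩
      rw [C_neg, sub_neg_eq_add]
      exact (hm i).eq_X_add_C hi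
    have hup : (up (φ i) : L[X]) = X - C (algebraMap M L α) := by
      rw [hα]
      show (X - C α).map (algebraMap M L) = _
      rw [Polynomial.map_sub, Polynomial.map_X, Polynomial.map_C]
    have hroot : (∏ i, φ i).eval α = 0 := by
      rw [eval_prod]
      refine Finset.prod_eq_zero (Finset.mem_univ i) ?_
      rw [hα, eval_sub, eval_X, eval_C, sub_self]
    have hroot' : (up (∏ i, φ i) : L[X]).eval (algebraMap M L α) = 0 := by
      show ((∏ i, φ i).map (algebraMap M L)).eval _ = 0
      rw [eval_map_algebraMap, aeval_algebraMap_apply, coe_aeval_eq_eval, hroot, map_zero]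
    have hns : W.toAffine.Nonsingular (algebraMap M L α) ω := by
      rw [nonsingular_iff]
      constructor
      · rw [equation_iff]
        have e1 : W.a₁ = 0 := rfl
        have e2 : W.a₂ = (up (∏ i, φ i) : L[X]).coeff 2 := rfl
        have e3 : W.a₃ = 0 := rfl
        have e4 : W.a₄ = (up (∏ i, φ i) : L[X]).coeff 1 := rfl
        have e6 : W.a₆ = (up (∏ i, φ i) : L[X]).coeff 0 + ω ^ 2 := rfl
        rw [e1, e2, e3, e4, e6]
        rw [monic_cubic _ hupm hupd] at hroot'
        simp only [eval_add, eval_mul, eval_pow, eval_X, eval_C] at hroot'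
        linear_combination -hroot'
      · right
        have e1 : W.a₁ = 0 := rfl
        have e3 : W.a₃ = 0 := rfl
        rw [e1, e3]
        intro h
        have h3 : 2 * ω = 0 := by linear_combination h
        exact hω0 ((mul_eq_zero.1 h3).resolve_left h2)
    have hIe' : I = CoordinateRing.XYIdeal W.toAffine (algebraMap M L α) (C ω) := by
      rw [hIe, hup]
      rfl
    rw [hmemHs]
    subst hIe'
    rw [← toClass_mk0 hns hI]
    exact ⟨_, rfl⟩
  have hsurj : Function.Surjective (Point.toClass (W := W.toAffine)) := by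
    intro x
    have h1 : Additive.toMul x ∈ Hs := by
      rw [htop]
      trivial
    exact h1
  let e : W.toAffine.Point ≃+ Additive (ClassGroup W.toAffine.CoordinateRing) :=
    AddEquiv.ofBijective Point.toClass ⟨Point.toClass_injective, hsurj⟩
  let eZ : W.toAffine.Point ≃ₗ[ℤ] Additive (ClassGroup W.toAffine.CoordinateRing) :=
    e.toIntLinearEquiv
  have i1 : Module.Free ℤ (Additive (ClassGroup W.toAffine.CoordinateRing)) := c1
  have i2 : Module.Finite ℤ (Additive (ClassGroup W.toAffine.CoordinateRing)) := c2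
  refine ⟨Module.Free.of_equiv eZ.symm, Module.Finite.equiv eZ.symm, ?_⟩
  rw [eZ.finrank_eq]
  exact c3

open Pool.Agent.Y707.DP in
/-- **The group of points of `Y² = D(X) + w` over `F(w)`** is zero. -/
theorem points_zero [CharZero M] [DecidableEq L] (hω : Transcendental M ω) (hL : Gen M ω) {D : M[X]}
    (hDm : D.Monic) (hD : D.natDegree = 3)
    (P : (cub (up D) ω : WeierstrassCurve L).toAffine.Point) : P = 0 := by
  classical
  have hodd : Odd D.natDegree := by rw [hD]; decide
  obtain ⟨h1, h3, -⟩ := base_pid hω hL hodd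
  set W : WeierstrassCurve L := cub (up D) ω with hW
  have hupm : (up D : L[X]).Monic := hDm.map _
  have hupd : (up D : L[X]).natDegree = 3 := by
    rw [← hD]
    exact hDm.natDegree_map _
  have hpoly : W.toAffine.polynomial = X ^ 2 - C (fw ω D) := by
    rw [hW, cub_poly _ hupm hupd]
    rfl
  have key : ∀ p : L[X][X], p = X ^ 2 - C (fw ω D) → ∀ [IsDomain (AdjoinRoot p)],
      Subsingleton (Additive (ClassGroup (AdjoinRoot p))) := by
    rintro p rfl _
    exact h3
  have hsub : Subsingleton (Additive (ClassGroup W.toAffine.CoordinateRing)) :=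
    key W.toAffine.polynomial hpoly
  exact Point.toClass_injective (Subsingleton.elim _ _)

end

end Pool.Agent.R410.BA
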