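import Pool.Agent.R410.BA.Fin

/-!
# Existence of the function field and of good models
-/

set_option autoImplicit false
set_option linter.all false
set_option maxHeartbeats 1000000

namespace Pool.Agent.R410.BA

open Polynomial Finset NumberField
open Pool.Agent.R410.BS (cub cub_map cub_Δ)
open Pool.Agent.R410.LW (FG frac_of_closure closure_spec)

section
variable {M : Type} [Field M] {r : ℕ}

theorem exists_ff (f : Fin r → M[X]) : ∃ (K : Type) (_ : Field K) (_ : Algebra M K) (w : K)
    (x y : Fin r → K), AlgebraicIndependent M (fun o : Option (Fin r) => o.elim w x) ∧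
      (∀ i, y i ^ 2 = aeval (x i) (f i) + w) ∧
      IntermediateField.adjoin M (insert w (Set.range x ∪ Set.range y)) = ⊤ := by
  classical
  let P := MvPolynomial (Option (Fin r)) M
  let Q := FractionRing P
  let Ω := AlgebraicClosure Q
  let z : Option (Fin r) → Ω := fun o => algebraMap Q Ω (algebraMap P Q (MvPolynomial.X o))
  have hz : AlgebraicIndependent M z := by
    have h1 : AlgebraicIndependent M (MvPolynomial.X : Option (Fin r) → P) :=
      MvPolynomial.algebraicIndependent_X _ _
    have h2 : Function.Injective (IsScalarTower.toAlgHom M P Ω) := by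
      have h3 : Function.Injective (algebraMap P Ω) := by
        rw [IsScalarTower.algebraMap_eq P Q Ω]
        exact (algebraMap Q Ω).injective.comp (IsFractionRing.injective P Q)
      exact h3
    have h3 := h1.map' h2
    have h4 : (⇑(IsScalarTower.toAlgHom M P Ω) ∘ (MvPolynomial.X : Option (Fin r) → P)) = z := by
      funext o
      show algebraMap P Ω (MvPolynomial.X o) = _
      rw [IsScalarTower.algebraMap_apply P Q Ω]
    rw [h4] at h3
    exact h3
  have hsq : ∀ i, ∃ t : Ω, t ^ 2 = aeval (z (some i)) (f i) + z none := fun i =>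
    IsAlgClosed.exists_pow_nat_eq _ (by norm_num)
  choose y₀ hy₀ using hsq
  let S : Set Ω := insert (z none) (Set.range (fun i => z (some i)) ∪ Set.range y₀)
  let K := IntermediateField.adjoin M S
  have hw : z none ∈ K := IntermediateField.subset_adjoin M S (Set.mem_insert _ _)
  have hx : ∀ i, z (some i) ∈ K := fun i => IntermediateField.subset_adjoin M S
    (Set.mem_insert_of_mem _ (Or.inl ⟨i, rfl⟩))
  have hy : ∀ i, y₀ i ∈ K := fun i => IntermediateField.subset_adjoin M S
    (Set.mem_insert_of_mem _ (Or.inr ⟨i, rfl⟩))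
  refine ⟨K, inferInstance, inferInstance, ⟨_, hw⟩, fun i => ⟨_, hx i⟩, fun i => ⟨_, hy i⟩, ?_, ?_, ?_⟩
  · have h1 : (algebraMap K Ω) ∘ (fun o : Option (Fin r) => o.elim (⟨_, hw⟩ : K) fun i => ⟨_, hx i⟩) = z := by
      funext o
      cases o <;> rfl
    have h2 : AlgebraicIndependent M ((K.val : K →ₐ[M] Ω) ∘
        (fun o : Option (Fin r) => o.elim (⟨_, hw⟩ : K) fun i => ⟨_, hx i⟩)) := by
      have h3 : ((K.val : K →ₐ[M] Ω) ∘
        (fun o : Option (Fin r) => o.elim (⟨_, hw⟩ : K) fun i => ⟨_, hx i⟩)) = z := h1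
      rw [h3]
      exact hz
    exact h2.of_comp _
  · intro i
    apply (algebraMap K Ω).injective
    rw [map_pow, map_add, ← aeval_algebraMap_apply]
    exact hy₀ i
  · apply IntermediateField.map_injective K.val
    rw [IntermediateField.adjoin_map]
    have h1 : (K.val : K →ₐ[M] Ω) '' (insert (⟨_, hw⟩ : K) (Set.range (fun i => (⟨_, hx i⟩ : K)) ∪
        Set.range fun i => (⟨_, hy i⟩ : K))) = S := by
      rw [Set.image_insert_eq, Set.image_union, ← Set.range_comp, ← Set.range_comp]
      rfl
    rw [h1, ← AlgHom.fieldRange_eq_map, IntermediateField.fieldRange_val]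

end

section
variable {M K : Type} [Field M] [CharZero M] [Field K] [CharZero K] [Algebra M K] {r : ℕ}
  {x y : Fin r → K} {w : K}

theorem fg_K (hM : FG M)
    (htop : IntermediateField.adjoin M (insert w (Set.range x ∪ Set.range y)) = ⊤) : FG K := by
  classical
  obtain ⟨S, hS⟩ := hM
  let T : Finset K := S.image (algebraMap M K) ∪ {w} ∪ univ.image x ∪ univ.image y
  refine ⟨T, ?_⟩
  set N : Subfield K := Subfield.closure (T : Set K) with hN
  have hTN : ∀ t ∈ T, t ∈ N := fun t ht => Subfield.subset_closure ht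
  have hMN : ∀ m : M, algebraMap M K m ∈ N := by
    have h1 : Subfield.closure (S : Set M) ≤ N.comap (algebraMap M K) := by
      rw [Subfield.closure_le]
      intro s hs
      show algebraMap M K s ∈ N
      refine hTN _ ?_
      simp only [T, Finset.mem_union, Finset.mem_image]
      exact Or.inl (Or.inl (Or.inl ⟨s, hs, rfl⟩))
    intro m
    have h2 : m ∈ Subfield.closure (S : Set M) := by
      rw [hS]
      trivial
    exact h1 h2
  have hle : IntermediateField.adjoin M (insert w (Set.range x ∪ Set.range y)) ≤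
      Subfield.toIntermediateField N hMN := by
    rw [IntermediateField.adjoin_le_iff]
    rintro a (rfl | ⟨i, rfl⟩ | ⟨i, rfl⟩)
    · refine hTN _ ?_
      simp only [T, Finset.mem_union, Finset.mem_image]
      exact Or.inl (Or.inl (Or.inr (Finset.mem_singleton_self _)))
    · refine hTN _ ?_
      simp only [T, Finset.mem_union, Finset.mem_image, Finset.mem_singleton]
      exact Or.inl (Or.inr ⟨i, Finset.mem_univ i, rfl⟩)
    · refine hTN _ ?_
      simp only [T, Finset.mem_union, Finset.mem_image, Finset.mem_singleton]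
      exact Or.inr ⟨i, Finset.mem_univ i, rfl⟩
  rw [eq_top_iff]
  intro z _
  have hz : z ∈ IntermediateField.adjoin M (insert w (Set.range x ∪ Set.range y)) := by
    rw [htop]
    trivial
  exact hle hz

theorem cub_ne (c : M[X]) (hw : Transcendental M w) : (cub (c.map (algebraMap M K)) w).Δ ≠ 0 := by
  intro h
  obtain ⟨P, hP⟩ : ∃ P : M[X], P = (cub (c.map C) X : WeierstrassCurve M[X]).Δ := ⟨_, rfl⟩
  have h1 : aeval w P = 0 := by
    have h2 : ((cub (c.map C) X : WeierstrassCurve M[X]).map ((aeval w : M[X] →ₐ[M] K) : M[X] →+* K)) =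
        cub (c.map (algebraMap M K)) w := by
      rw [cub_map, Polynomial.map_map]
      congr 1
      · congr 1
        ext a
        simp
      · simp
    rw [hP]
    have h3 := WeierstrassCurve.map_Δ (cub (c.map C) X : WeierstrassCurve M[X])
      ((aeval w : M[X] →ₐ[M] K) : M[X] →+* K)
    rw [h2, h] at h3
    exact h3.symm
  have h2 : P ≠ 0 := by
    intro h0
    have h4 := congrArg (fun p => p.coeff 2) h0
    have key : ∀ a b c : M, (-432 * (C c + X) ^ 2 + (288 * C a * C b - 64 * C a ^ 3) * (C c + X) +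
        (16 * C a ^ 2 * C b ^ 2 - 64 * C b ^ 3) : M[X]).coeff 2 = -432 := by
      intro a b c
      have e : (-432 * (C c + X) ^ 2 + (288 * C a * C b - 64 * C a ^ 3) * (C c + X) +
          (16 * C a ^ 2 * C b ^ 2 - 64 * C b ^ 3) : M[X]) =
          C (-432) * X ^ 2 + C (-864 * c + (288 * a * b - 64 * a ^ 3)) * X +
            C (-432 * c ^ 2 + (288 * a * b - 64 * a ^ 3) * c + (16 * a ^ 2 * b ^ 2 - 64 * b ^ 3)) := by
        simp only [C_mul, C_pow, C_sub, C_add, C_neg]
        simp only [C_ofNat]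
        ring
      have e2 : ∀ α β γ : M, (C α * X ^ 2 + C β * X + C γ : M[X]).coeff 2 = α := by
        intro α β γ
        simp [coeff_X, coeff_C]
      rw [e, e2]
    rw [hP, cub_Δ, coeff_map, coeff_map, coeff_map] at h4
    have h5 := key (c.coeff 2) (c.coeff 1) (c.coeff 0)
    rw [h5] at h4
    norm_num at h4
  exact hw ⟨P, h2, h1⟩

/-- A model with good reduction everywhere. -/
theorem exists_model (hK : FG K) (E : WeierstrassCurve K) (hΔ : E.Δ ≠ 0) :
    ∃ (R : Subalgebra ℤ K) (W : WeierstrassCurve R), Algebra.FiniteType ℤ R ∧ IsFractionRing R K ∧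
      W.map (algebraMap R K) = E ∧ IsUnit W.Δ := by
  classical
  obtain ⟨R, hR, h1, h2⟩ := exists_ring hK {E.a₁, E.a₂, E.a₃, E.a₄, E.a₆, E.Δ⁻¹}
  have hm : ∀ t ∈ ({E.a₁, E.a₂, E.a₃, E.a₄, E.a₆, E.Δ⁻¹} : Finset K), t ∈ R := hR
  let W : WeierstrassCurve R := ⟨⟨E.a₁, hm _ (by simp)⟩, ⟨E.a₂, hm _ (by simp)⟩,
    ⟨E.a₃, hm _ (by simp)⟩, ⟨E.a₄, hm _ (by simp)⟩, ⟨E.a₆, hm _ (by simp)⟩⟩
  have hW : W.map (algebraMap R K) = E := by
    apply WeierstrassCurve.ext <;> rfl
  refine ⟨R, W, h1, h2, hW, ?_⟩
  have h3 : algebraMap R K W.Δ = E.Δ := by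
    rw [← hW, WeierstrassCurve.map_Δ]
  refine IsUnit.of_mul_eq_one (⟨E.Δ⁻¹, hm _ (by simp)⟩ : R) ?_
  apply Subtype.ext
  show algebraMap R K W.Δ * E.Δ⁻¹ = 1
  rw [h3, mul_inv_cancel₀ hΔ]

end

end Pool.Agent.R410.BA
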