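import Pool.Agent.R410.BS.MS

/-!
# The irreducible factors of `f₀(z) - f(x)`
-/

set_option autoImplicit false
set_option linter.all false

open Polynomial

namespace Pool.Agent.R410.BA

open Pool.Agent.R410.BS (PP)

/-- the monic irreducible factors -/
def MF {S : Type} [CommRing S] (P : S[X]) : Type := {Q : S[X] // Q.Monic ∧ Irreducible Q ∧ Q ∣ P}

section
variable {S : Type} [CommRing S] [IsDomain S] [UniqueFactorizationMonoid S]

theorem monic_factor (n : ℕ) : ∀ P : S[X], P.Monic → P.natDegree ≤ n →
    ∃ s : Multiset S[X], (∀ Q ∈ s, Q.Monic ∧ Irreducible Q) ∧ s.prod = P := by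
  induction n with
  | zero =>
    intro P hP hn
    refine ⟨0, by simp, ?_⟩
    rw [Multiset.prod_zero]
    exact (hP.natDegree_eq_zero.1 (Nat.le_zero.1 hn)).symm
  | succ n ih =>
    intro P hP hn
    by_cases h1 : P.natDegree = 0
    · refine ⟨0, by simp, ?_⟩
      rw [Multiset.prod_zero]
      exact (hP.natDegree_eq_zero.1 h1).symm
    have hu : ¬ IsUnit P := fun h => h1 (natDegree_eq_zero_of_isUnit h)
    obtain ⟨g, hg, h, hgh⟩ := WfDvdMonoid.exists_irreducible_factor hu hP.ne_zero
    have hlc : g.leadingCoeff * h.leadingCoeff = 1 := by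
      rw [← leadingCoeff_mul, ← hgh]
      exact hP
    have hug : IsUnit (C h.leadingCoeff : S[X]) := isUnit_C.2 (IsUnit.of_mul_eq_one_right _ hlc)
    obtain ⟨g', hg'⟩ : ∃ g', g' = g * C h.leadingCoeff := ⟨_, rfl⟩
    obtain ⟨h', hh'⟩ : ∃ h', h' = C g.leadingCoeff * h := ⟨_, rfl⟩
    have hg'm : g'.Monic := by
      rw [Monic, hg', leadingCoeff_mul, leadingCoeff_C]
      exact hlc
    have hh'm : h'.Monic := by
      rw [Monic, hh', leadingCoeff_mul, leadingCoeff_C]
      exact hlc
    have hprod : g' * h' = P := by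
      rw [hg', hh', hgh]
      have h2 : (C h.leadingCoeff * C g.leadingCoeff : S[X]) = 1 := by
        rw [← C_mul, mul_comm, hlc, C_1]
      linear_combination (g * h) * h2
    have hirr : Irreducible g' := by
      rw [hg', irreducible_mul_isUnit hug]
      exact hg
    have hdeg : g'.natDegree + h'.natDegree = P.natDegree := by
      rw [← hprod, hg'm.natDegree_mul hh'm]
    have hpos : 0 < g'.natDegree := by
      rw [pos_iff_ne_zero]
      intro h0
      rw [hg'm.natDegree_eq_zero] at h0
      rw [h0] at hirr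
      exact hirr.not_isUnit isUnit_one
    obtain ⟨s, hs, hsp⟩ := ih h' hh'm (by omega)
    refine ⟨g' ::ₘ s, ?_, ?_⟩
    · intro Q hQ
      rcases Multiset.mem_cons.1 hQ with rfl | hQ
      · exact ⟨hg'm, hirr⟩
      · exact hs Q hQ
    · rw [Multiset.prod_cons, hsp, hprod]

theorem mf_spec {P : S[X]} (hP : P.Monic) (hsq : Squarefree P) : ∃ _ : Fintype (MF P),
    ∏ Q : MF P, Q.1 = P := by
  classical
  obtain ⟨s, hs, hsp⟩ := monic_factor P.natDegree P hP le_rfl
  have hnd : s.Nodup := by
    rw [Multiset.nodup_iff_le]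
    intro Q hQ
    have h1 : Q * Q ∣ P := by
      rw [← hsp]
      have h2 := Multiset.prod_dvd_prod_of_le hQ
      simpa using h2
    have h2 : Q ∈ s := Multiset.mem_of_le hQ (by simp)
    exact (hs Q h2).2.not_isUnit (hsq Q h1)
  have hmem : ∀ Q : S[X], Q ∈ s.toFinset ↔ (Q.Monic ∧ Irreducible Q ∧ Q ∣ P) := by
    intro Q
    rw [Multiset.mem_toFinset]
    constructor
    · intro hQ
      exact ⟨(hs Q hQ).1, (hs Q hQ).2, hsp ▸ Multiset.dvd_prod hQ⟩
    · rintro ⟨h1, h2, h3⟩
      rw [← hsp] at h3
      obtain ⟨R, hR, hd⟩ := Prime.exists_mem_multiset_dvd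
        (UniqueFactorizationMonoid.irreducible_iff_prime.1 h2) h3
      have h4 : Associated Q R := h2.associated_of_dvd (hs R hR).2 hd
      rw [eq_of_monic_of_associated h1 (hs R hR).1 h4]
      exact hR
  let e : MF P ≃ s.toFinset := Equiv.subtypeEquivRight fun Q => (hmem Q).symm
  let _ : Fintype (MF P) := Fintype.ofEquiv _ e.symm
  refine ⟨inferInstance, ?_⟩
  have h1 : ∏ Q : MF P, Q.1 = ∏ Q : s.toFinset, Q.1 := Fintype.prod_equiv e _ _ fun Q => rfl
  rw [h1, Finset.prod_coe_sort s.toFinset (fun Q => Q), ← hsp]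
  have h2 := Finset.prod_val s.toFinset
  rw [Multiset.toFinset_val, hnd.dedup] at h2
  rw [h2]
  rfl

end

section
variable {M : Type} [Field M] [CharZero M]

theorem PP_monic {S : Type} [CommRing S] [IsDomain S] {f₀ : S[X]} (f : S[X]) (hm : f₀.Monic)
    (h0 : 0 < f₀.natDegree) : (PP f₀ f).Monic := by
  have hdeg : (f₀.map C : S[X][X]).natDegree = f₀.natDegree := natDegree_map_eq_of_injective C_injective f₀
  have hlt : (C f : S[X][X]).natDegree < (f₀.map C : S[X][X]).natDegree := by
    rw [hdeg, natDegree_C]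
    exact h0
  exact (hm.map C).sub_of_left (degree_lt_degree hlt)

theorem PP_sqf {f₀ f : M[X]} (hm : f₀.Monic) (h0 : 0 < f₀.natDegree) (hd : 0 < f.natDegree) :
    Squarefree (PP f₀ f) := by
  have hder : derivative f ≠ 0 := by
    intro h
    have := natDegree_eq_zero_of_derivative_eq_zero h
    omega
  -- a polynomial dividing a nonzero polynomial in the inner variable only
  have key : ∀ Q : M[X][X], Q * Q ∣ PP f₀ f → Q.natDegree = 0 := by
    intro Q hQ
    have h1 : Bivariate.swap (R := M) Q * Bivariate.swap (R := M) Q ∣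
        C f₀ - f.map C := by
      have h2 := map_dvd (Bivariate.swap (R := M)) hQ
      rw [map_mul] at h2
      have h3 : Bivariate.swap (R := M) (PP f₀ f) = C f₀ - f.map C := by
        have h4 : Bivariate.swap (R := M) (C f₀ - f.map C) = PP f₀ f := by
          rw [map_sub, Bivariate.swap_C]
          have h5 : Bivariate.swap (R := M) (f.map C) = C f := by
            rw [← Bivariate.swap_C, Bivariate.swap_swap_apply]
          rw [h5]
          rfl
        rw [← h4, Bivariate.swap_swap_apply]
      rwa [h3] at h2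
    obtain ⟨R, hR⟩ := h1
    have h2 : Bivariate.swap (R := M) Q ∣ derivative (C f₀ - f.map C) := by
      rw [hR, derivative_mul, derivative_mul]
      refine ⟨derivative (Bivariate.swap (R := M) Q) * R + derivative (Bivariate.swap (R := M) Q) * R +
        Bivariate.swap (R := M) Q * derivative R, ?_⟩
      ring
    have h3 : derivative (C f₀ - f.map C) = -(derivative f).map C := by
      rw [derivative_sub, derivative_C, zero_sub, derivative_map]
    have h2' : Bivariate.swap (R := M) Q ∣ (derivative f).map C := by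
      obtain ⟨t, ht⟩ := h2
      refine ⟨-t, ?_⟩
      linear_combination h3 - ht
    have h4 := map_dvd (Bivariate.swap (R := M)) h2'
    rw [Bivariate.swap_swap_apply] at h4
    have h5 : Bivariate.swap (R := M) ((derivative f).map C) = C (derivative f) := by
      rw [← Bivariate.swap_C, Bivariate.swap_swap_apply]
    rw [h5] at h4
    have h6 := natDegree_le_of_dvd h4 (C_ne_zero.2 hder)
    rw [natDegree_C] at h6
    omega
  intro Q hQ
  have h1 := key Q hQ
  rw [natDegree_eq_zero] at h1
  obtain ⟨c, rfl⟩ := h1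
  have h2 : C c ∣ PP f₀ f := (dvd_mul_right _ _).trans hQ
  rw [C_dvd_iff_dvd_coeff] at h2
  have h3 := h2 (PP f₀ f).natDegree
  rw [show (PP f₀ f).coeff (PP f₀ f).natDegree = 1 from (PP_monic f hm h0)] at h3
  exact isUnit_C.2 (isUnit_of_dvd_one h3)

end

end Pool.Agent.R410.BA
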