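import Pool.Agent.R410.BA.Frac
import Pool.Agent.R410.BA.Fac
import Pool.Agent.R410.BS.AM

/-!
# The Euler product over every model, and the rank
-/

set_option autoImplicit false
set_option linter.all false
set_option maxHeartbeats 1000000

namespace Pool.Agent.R410.BA

open Polynomial Finset NumberField
open Pool.Agent.R410.BS (wA BB cst wB xB PP main_sum any_model cub cub_map EB EB_map cF cub_Δ)
open Pool.Agent.R410.LW (FG frac_of_closure closure_spec)
open Pool.Agent.TH958.An (trE tF ay qy Pt)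

section
variable {M : Type} [Field M]

theorem exists_ring (hM : FG M) (T : Finset M) : ∃ A : Subalgebra ℤ M, (∀ t ∈ T, t ∈ A) ∧
    Algebra.FiniteType ℤ A ∧ IsFractionRing A M := by
  classical
  obtain ⟨S, hS⟩ := hM
  have hc : Subfield.closure ((S ∪ T : Finset M) : Set M) = ⊤ := by
    rw [eq_top_iff, ← hS]
    refine Subfield.closure_mono ?_
    rw [Finset.coe_union]
    exact Set.subset_union_left
  obtain ⟨h1, h2⟩ := closure_spec (S ∪ T) hc
  refine ⟨_, fun t ht => Algebra.subset_adjoin ?_, h1, h2⟩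
  rw [Finset.coe_union]
  exact Or.inr ht

theorem lift1 {A : Subalgebra ℤ M} {p : M[X]} (hA : ∀ t ∈ p.coeffs, t ∈ A) (hm : p.Monic) :
    ∃ q : A[X], q.map (algebraMap A M) = p ∧ q.Monic ∧ q.natDegree = p.natDegree := by
  have hl : p ∈ lifts (algebraMap A M) := by
    rw [lifts_iff_coeff_lifts]
    intro l
    by_cases h : p.coeff l = 0
    · exact ⟨0, by rw [map_zero, h]⟩
    · exact ⟨⟨_, hA _ (coeff_mem_coeffs h)⟩, rfl⟩
  obtain ⟨q, h1, h2, h3⟩ := lifts_and_natDegree_eq_and_monic hl hm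
  exact ⟨q, h1, h3, h2⟩

theorem lift2 {A : Subalgebra ℤ M} {p : M[X][X]} (hA : ∀ P ∈ p.coeffs, ∀ t ∈ P.coeffs, t ∈ A)
    (hm : p.Monic) : ∃ q : A[X][X], q.map (mapRingHom (algebraMap A M)) = p ∧ q.Monic := by
  have hl : p ∈ lifts (mapRingHom (algebraMap A M)) := by
    rw [lifts_iff_coeff_lifts]
    intro l
    by_cases h : p.coeff l = 0
    · exact ⟨0, by rw [map_zero, h]⟩
    · have hl' : p.coeff l ∈ lifts (algebraMap A M) := by
        rw [lifts_iff_coeff_lifts]
        intro k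
        by_cases hk : (p.coeff l).coeff k = 0
        · exact ⟨0, by rw [map_zero, hk]⟩
        · exact ⟨⟨_, hA _ (coeff_mem_coeffs h) _ (coeff_mem_coeffs hk)⟩, rfl⟩
      obtain ⟨q, hq⟩ := (lifts_iff_set_range _).1 hl'
      exact ⟨q, hq⟩
  obtain ⟨q, h1, h2, h3⟩ := lifts_and_natDegree_eq_and_monic hl hm
  exact ⟨q, h1, h3⟩

end

section
variable {M K : Type} [Field M] [CharZero M] [Field K] [CharZero K] [Algebra M K] {r : ℕ}
  {x y : Fin r → K} {w : K}

/-- The transcendence degree. -/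
theorem trdeg_K {d : ℕ} (hd : Algebra.trdeg ℚ M = d)
    (hind : AlgebraicIndependent M (fun o : Option (Fin r) => o.elim w x))
    {f : Fin r → M[X]} (hy : ∀ i, y i ^ 2 = aeval (x i) (f i) + w)
    (htop : IntermediateField.adjoin M (insert w (Set.range x ∪ Set.range y)) = ⊤) :
    Algebra.trdeg ℚ K = (d + 1 + r : ℕ) := by
  have h1 := trdeg_add_eq ℚ M (A := K)
  rw [trdeg_pencils hind hy htop, hd] at h1
  rw [← h1]
  push_cast
  ring

/-- **The Euler product over every model.** -/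
theorem euler_any (hM : FG M) {d : ℕ} (hd : Algebra.trdeg ℚ M = d)
    (hind : AlgebraicIndependent M (fun o : Option (Fin r) => o.elim w x))
    {f₀ : M[X]} (hf₀ : f₀.Monic) (h3 : f₀.natDegree = 3) {f : Fin r → M[X]} (hf : ∀ i, (f i).Monic)
    (hodd : ∀ i, Odd (f i).natDegree) (hy : ∀ i, y i ^ 2 = aeval (x i) (f i) + w)
    (htop : IntermediateField.adjoin M (insert w (Set.range x ∪ Set.range y)) = ⊤)
    (R : Type) [CommRing R] [IsDomain R] [Algebra.FiniteType ℤ R] [Algebra R K] [IsFractionRing R K]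
    (W : WeierstrassCurve R) (hW : W.map (algebraMap R K) = cub (f₀.map (algebraMap M K)) w) :
    ∃ Φ : ℂ → ℂ,
      (∀ s : ℂ, ((d + 1 + r : ℕ) : ℝ) + 3 / 2 < s.re → HasProd (fun y : {y : Pt R // W.Δ ∉ y.asIdeal} =>
        (1 - (ay W y.1 : ℂ) * (qy y.1 : ℂ) ^ (-s) + (qy y.1 : ℂ) ^ (1 - 2 * s))⁻¹) (Φ s)) ∧
      DifferentiableOn ℂ Φ {s : ℂ | ((d + 1 + r : ℕ) : ℝ) + 1 < s.re} ∧
      MeromorphicAt Φ (((d + 1 + r : ℕ) : ℂ) + 1) ∧ meromorphicOrderAt Φ (((d + 1 + r : ℕ) : ℂ) + 1) =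
        ((∑ i, (Nat.card (MF (PP f₀ (f i))) : ℤ) - r : ℤ) : WithTop ℤ) := by
  classical
  have hdeg : ∀ i, 0 < (f i).natDegree := fun i => (hodd i).pos
  have h03 : 0 < f₀.natDegree := by rw [h3]; norm_num
  choose iF hF using fun i => mf_spec (PP_monic (f i) hf₀ h03) (PP_sqf hf₀ h03 (hdeg i))
  -- the factors
  let J : Fin r → Type := fun i => MF (PP f₀ (f i))
  let h : ∀ i, J i → M[X][X] := fun i Q => Q.1
  have hm : ∀ i j, (h i j).Monic := fun i j => j.2.1
  have hirr : ∀ i j, Irreducible (h i j) := fun i j => j.2.2.1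
  have hinj : ∀ i, Function.Injective (h i) := fun i => Subtype.val_injective
  obtain ⟨L, iL, nL, LL, iLL, nLL, hmain⟩ := main_sum hM hd h hm hirr hinj
  -- the ring of coefficients
  obtain ⟨A, hA, hft, hfr⟩ := exists_ring hM (f₀.coeffs ∪ univ.biUnion (fun i => (f i).coeffs) ∪
    univ.biUnion (fun i => univ.biUnion fun j => (h i j).coeffs.biUnion Polynomial.coeffs))
  obtain ⟨g₀, hg₀, hg₀m, hg₀d⟩ := lift1 (A := A) (p := f₀) (fun t ht => hA t (by
    rw [Finset.mem_union, Finset.mem_union]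
    exact Or.inl (Or.inl ht))) hf₀
  choose g hg hgm hgd using fun i => lift1 (A := A) (p := f i) (fun t ht => hA t (by
    rw [Finset.mem_union, Finset.mem_union]
    exact Or.inl (Or.inr (Finset.mem_biUnion.2 ⟨i, Finset.mem_univ i, ht⟩)))) (hf i)
  choose hh hhh hhm using fun i j => lift2 (A := A) (p := h i j) (fun P hP t ht => hA t (by
    rw [Finset.mem_union]
    exact Or.inr (Finset.mem_biUnion.2 ⟨i, Finset.mem_univ i, Finset.mem_biUnion.2
      ⟨j, Finset.mem_univ j, Finset.mem_biUnion.2 ⟨P, hP, ht⟩⟩⟩))) (hm i j)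
  have hAinj : Function.Injective (algebraMap A M) := IsFractionRing.injective A M
  have hprodA : ∀ i, ∏ j, hh i j = PP g₀ (g i) := by
    intro i
    apply Polynomial.map_injective (mapRingHom (algebraMap A M)) (Polynomial.map_injective _ hAinj)
    rw [Polynomial.map_prod, Finset.prod_congr rfl fun j _ => hhh i j]
    have h1 : ∏ j, h i j = PP f₀ (f i) := hF i
    rw [h1]
    unfold PP
    rw [Polynomial.map_sub, Polynomial.map_C, Polynomial.map_map, coe_mapRingHom, hg, ← hg₀,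
      Polynomial.map_map]
    congr 2
    ext a
    simp
  obtain ⟨C, N, hC, hN, hsum⟩ := hmain A hh g₀ g hg₀m (by rw [hg₀d, h3])
    (fun i => ⟨hgm i, by rw [hgd]; exact hodd i⟩) hhm hhh hprodA 1 one_ne_zero
  -- the ring of the product of the pencils
  obtain ⟨φ, hφc, hφw, hφi, hφf⟩ := frac_bb hind hdeg hy htop (A := A) g hg
  let _ : Algebra (BB g) K := φ.toAlgebra
  have _ : IsFractionRing (BB g) K := hφf
  have hdom : IsDomain (BB g) := hφi.isDomain φ
  have htr := trdeg_K hd hind hy htop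
  -- the combination of the number fields
  let κ : Type := (Σ i, J i) ⊕ Fin r
  let Ls : κ → Type := Sum.elim (fun z => LL z.1 z.2) (fun _ => L)
  let iLs : ∀ k, Field (Ls k) := fun k => match k with
    | Sum.inl z => iLL z.1 z.2
    | Sum.inr _ => iL
  have nLs : ∀ k, NumberField (Ls k) := fun k => match k with
    | Sum.inl z => nLL z.1 z.2
    | Sum.inr _ => nL
  let a : κ → ℝ := Sum.elim (fun _ => 1) (fun _ => -1)
  have hcard : ∀ i, Nat.card (MF (PP f₀ (f i))) = Fintype.card (J i) := fun i => Nat.card_eq_fintype_card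
  have hsa : ∑ k, a k = ((∑ i, (Nat.card (MF (PP f₀ (f i))) : ℤ) - r : ℤ) : ℝ) := by
    rw [Fintype.sum_sum_type, Fintype.sum_sigma]
    simp only [a, Sum.elim_inl, Sum.elim_inr, Finset.sum_const, Finset.card_univ, nsmul_eq_mul, mul_one,
      Fintype.card_fin]
    push_cast
    rw [Finset.sum_congr rfl fun i _ => by rw [← hcard i]]
    ring
  have hcF : ∀ (F : Type) [Field F], cF Ls a F =
      ∑ i, ∑ j, (Nat.card (𝓞 (LL i j) →+* F) : ℝ) - r * (Nat.card (𝓞 L →+* F) : ℝ) := by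
    intro F _
    unfold cF
    rw [Fintype.sum_sum_type, Fintype.sum_sigma]
    simp only [a, Sum.elim_inl, Sum.elim_inr, one_mul]
    have h2 : ∑ x : Fin r, -1 * (Nat.card (𝓞 (Ls (Sum.inr x)) →+* F) : ℝ) =
        -(r * (Nat.card (𝓞 L →+* F) : ℝ)) := by
      show ∑ x : Fin r, -1 * (Nat.card (𝓞 L →+* F) : ℝ) = _
      rw [Finset.sum_const, Finset.card_univ, Fintype.card_fin, nsmul_eq_mul]
      ring
    rw [h2, sub_eq_add_neg]
    rfl
  refine any_model g g₀ (e := d + 1 + r) htr.le (by omega) Ls a hsa ?_ R W ?_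
  · refine ⟨C, N, hC, hN, ?_⟩
    intro F _ _ _ hNF
    have h1 := hsum F hNF
    rw [hcF]
    have hinjF : ∀ φ : BB g →+* F, φ (cst g 1) ≠ 0 := fun φ => by
      rw [map_one, map_one]
      exact one_ne_zero
    have e1 : (∑ φ : BB g →+* F, (open Classical in if φ (cst g 1) ≠ 0 then
        tF (EB g g₀) (EB g g₀).Δ φ else 0)) = ∑ φ : BB g →+* F, tF (EB g g₀) (EB g g₀).Δ φ :=
      Finset.sum_congr rfl fun φ _ => if_pos (hinjF φ)
    rw [e1] at h1
    exact h1
  · rw [hW]
    show _ = (EB g g₀).map φ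
    unfold EB
    rw [cub_map, Polynomial.map_map, hφc, hφw, ← hg₀, Polynomial.map_map]

end

end Pool.Agent.R410.BA
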