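import Pool.Agent.R410.BA.Rk2
import Pool.Agent.R410.BS.BB
import Pool.Agent.R410.LW.Fg

/-!
# The function field of a product of pencils
-/

set_option autoImplicit false
set_option linter.all false
set_option maxHeartbeats 1000000

namespace Pool.Agent.R410.BA

open Polynomial Finset
open Pool.Agent.R410.BS (wA BB cst wB xB mkH mkH_c mkH_w mkH_x mkH_y mkH_base)
open Pool.Agent.TH958.FP (RR yR yR_sq mkR mkR_surj liftR liftR_y)
open Pool.Agent.R410.LW (FG frac_of_closure)
open scoped IntermediateField.algebraAdjoinAdjoin

section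
variable {M K : Type} [Field M] [CharZero M] [Field K] [Algebra M K] {r : ℕ} {x y : Fin r → K} {w : K}

theorem indep_split (hind : AlgebraicIndependent M (fun o : Option (Fin r) => o.elim w x)) :
    AlgebraicIndependent M x ∧
      Transcendental (IntermediateField.adjoin M (Set.range x)) w := by
  have h3 := AlgebraicIndependent.option_iff.1 hind
  refine ⟨h3.1, fun h4 => h3.2 ?_⟩
  exact (IsFractionRing.isAlgebraic_iff (Algebra.adjoin M (Set.range x))
      (IntermediateField.adjoin M (Set.range x)) K).2 h4

/-- **The structure of the function field.** -/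
theorem setup (hx : AlgebraicIndependent M x)
    (hw : Transcendental (IntermediateField.adjoin M (Set.range x)) w) {f : Fin r → M[X]}
    (hd : ∀ i, 0 < (f i).natDegree) (hy : ∀ i, y i ^ 2 = aeval (x i) (f i) + w)
    (htop : IntermediateField.adjoin M (insert w (Set.range x ∪ Set.range y)) = ⊤) :
    ∃ (F : IntermediateField M K) (V : IntermediateField F K) (xF : Fin r → F) (wV : V),
      (∀ i, algebraMap F K (xF i) = x i) ∧ algebraMap V K wV = w ∧ Transcendental F wV ∧ Gen F wV ∧
      Function.Injective (fun i => aeval (xF i) (f i)) ∧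
      (∀ i, y i ^ 2 = algebraMap V K (algebraMap F V (aeval (xF i) (f i)) + wV)) ∧
      Algebra.adjoin V (Set.range y) = ⊤ ∧ Algebra.IsAlgebraic V K := by
  have hcK : CharZero K := charZero_of_injective_algebraMap (algebraMap M K).injective
  obtain ⟨F, hF⟩ : ∃ F : IntermediateField M K, F = IntermediateField.adjoin M (Set.range x) :=
    ⟨_, rfl⟩
  rw [← hF] at hw
  have hxm : ∀ i, x i ∈ F := fun i => hF ▸ IntermediateField.subset_adjoin M _ ⟨i, rfl⟩
  let xF : Fin r → F := fun i => ⟨x i, hxm i⟩
  have hxF : ∀ i, (xF i : K) = x i := fun i => rfl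
  obtain ⟨V, hV⟩ : ∃ V : IntermediateField F K, V = IntermediateField.adjoin F {w} := ⟨_, rfl⟩
  have hwm : w ∈ V := hV ▸ IntermediateField.mem_adjoin_simple_self F w
  let wV : V := ⟨w, hwm⟩
  have hwVK : algebraMap V K wV = w := rfl
  have hwtr : Transcendental F wV := by
    intro h1
    exact hw (h1.algebraMap (A := K))
  have hgen : Gen F wV := by
    refine gen_sub (K := K) wV fun z => ?_
    show (z : K) ∈ IntermediateField.adjoin F {w}
    rw [← hV]
    exact z.2
  have hcK' : ∀ i, algebraMap F K (aeval (xF i) (f i)) = aeval (x i) (f i) := fun i => by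
    rw [← aeval_algebraMap_apply]
    rfl
  have hcinj : Function.Injective (fun i => aeval (xF i) (f i)) := by
    intro i j hij
    apply pencils_inj hx hd
    show aeval (x i) (f i) = aeval (x j) (f j)
    rw [← hcK', ← hcK']
    exact congrArg _ hij
  have hy' : ∀ i, y i ^ 2 = algebraMap V K (algebraMap F V (aeval (xF i) (f i)) + wV) := by
    intro i
    rw [hy, map_add, ← IsScalarTower.algebraMap_apply, hcK', hwVK]
  have hyint : ∀ z ∈ Set.range y, IsIntegral V z := by
    rintro _ ⟨i, rfl⟩
    refine IsIntegral.of_pow (n := 2) (by norm_num) ?_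
    rw [hy' i]
    exact isIntegral_algebraMap
  -- the square roots generate `K` over `V`
  have htop' : Algebra.adjoin V (Set.range y) = ⊤ := by
    have h1 : IntermediateField.adjoin V (Set.range y) = ⊤ := by
      rw [eq_top_iff]
      intro z _
      have hz : z ∈ IntermediateField.adjoin M (insert w (Set.range x ∪ Set.range y)) := by
        rw [htop]
        trivial
      have hle : IntermediateField.adjoin M (insert w (Set.range x ∪ Set.range y)) ≤
          ((IntermediateField.adjoin V (Set.range y)).restrictScalars F).restrictScalars M := by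
        rw [IntermediateField.adjoin_le_iff]
        rintro a (rfl | ⟨i, rfl⟩ | ⟨i, rfl⟩)
        · exact IntermediateField.algebraMap_mem (IntermediateField.adjoin V (Set.range y)) wV
        · exact IntermediateField.algebraMap_mem (IntermediateField.adjoin V (Set.range y))
            (algebraMap F V (xF i))
        · exact IntermediateField.subset_adjoin V (Set.range y) ⟨i, rfl⟩
      exact hle hz
    rw [← IntermediateField.adjoin_toSubalgebra_of_isAlgebraic
      (fun z hz => (hyint z hz).isAlgebraic), h1]
    rfl
  have halg : Algebra.IsAlgebraic V K := by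
    have h1 : Algebra.IsAlgebraic V (Algebra.adjoin V (Set.range y)) := by
      rw [← Subalgebra.isAlgebraic_iff, Algebra.isAlgebraic_adjoin_iff]
      exact fun z hz => (hyint z hz).isAlgebraic
    rw [htop'] at h1
    constructor
    intro z
    have h2 := h1.isAlgebraic (⟨z, trivial⟩ : (⊤ : Subalgebra V K))
    obtain ⟨p, hp, hz⟩ := h2
    refine ⟨p, hp, ?_⟩
    have h3 := congrArg (⊤ : Subalgebra V K).val hz
    rw [← aeval_algHom_apply, map_zero] at h3
    exact h3
  exact ⟨F, V, xF, wV, hxF, hwVK, hwtr, hgen, hcinj, hy', htop', halg⟩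

/-- The transcendence degree over the constants. -/
theorem trdeg_pencils (hind : AlgebraicIndependent M (fun o : Option (Fin r) => o.elim w x))
    {f : Fin r → M[X]} (hy : ∀ i, y i ^ 2 = aeval (x i) (f i) + w)
    (htop : IntermediateField.adjoin M (insert w (Set.range x ∪ Set.range y)) = ⊤) :
    Algebra.trdeg M K = (r + 1 : ℕ) := by
  obtain ⟨z, hz⟩ : ∃ z, z = (fun o : Option (Fin r) => o.elim w x) := ⟨_, rfl⟩
  rw [← hz] at hind
  have hzn : z none = w := by rw [hz]; rfl
  have hzs : ∀ i, z (some i) = x i := fun i => by rw [hz]; rfl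
  obtain ⟨V, hV⟩ : ∃ V : IntermediateField M K, V = IntermediateField.adjoin M (Set.range z) :=
    ⟨_, rfl⟩
  have hwV : w ∈ V := by
    rw [hV, ← hzn]
    exact IntermediateField.subset_adjoin M _ ⟨none, rfl⟩
  have hxV : ∀ i, x i ∈ V := by
    intro i
    rw [hV, ← hzs]
    exact IntermediateField.subset_adjoin M _ ⟨some i, rfl⟩
  have hyint : ∀ a ∈ Set.range y, IsIntegral V a := by
    rintro _ ⟨i, rfl⟩
    refine IsIntegral.of_pow (n := 2) (by norm_num) ?_
    have h1 : y i ^ 2 = algebraMap V K (⟨_, add_mem (aeval_mem' V (hxV i) (f i)) hwV⟩ : V) := hy i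
    rw [h1]
    exact isIntegral_algebraMap
  have h1 : IntermediateField.adjoin V (Set.range y) = ⊤ := by
    rw [eq_top_iff]
    intro a _
    have ha : a ∈ IntermediateField.adjoin M (insert w (Set.range x ∪ Set.range y)) := by
      rw [htop]
      trivial
    have hle : IntermediateField.adjoin M (insert w (Set.range x ∪ Set.range y)) ≤
        (IntermediateField.adjoin V (Set.range y)).restrictScalars M := by
      rw [IntermediateField.adjoin_le_iff]
      rintro a (rfl | ⟨i, rfl⟩ | ⟨i, rfl⟩)
      · exact IntermediateField.algebraMap_mem (IntermediateField.adjoin V (Set.range y)) (⟨_, hwV⟩ : V)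
      · exact IntermediateField.algebraMap_mem (IntermediateField.adjoin V (Set.range y))
          (⟨_, hxV i⟩ : V)
      · exact IntermediateField.subset_adjoin V (Set.range y) ⟨i, rfl⟩
    exact hle ha
  have halg : Algebra.IsAlgebraic V K := by
    have h2 : Algebra.IsAlgebraic V (IntermediateField.adjoin V (Set.range y)) :=
      IntermediateField.isAlgebraic_adjoin hyint
    rw [h1] at h2
    constructor
    intro a
    obtain ⟨p, hp, hz⟩ := h2.isAlgebraic (⟨a, trivial⟩ : (⊤ : IntermediateField V K))
    refine ⟨p, hp, ?_⟩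
    have h3 := congrArg (⊤ : IntermediateField V K).val hz
    rw [← aeval_algHom_apply, map_zero] at h3
    exact h3
  have hb : IsTranscendenceBasis M z := by
    rw [isTranscendenceBasis_iff_algebraicIndependent_isAlgebraic]
    refine ⟨hind, ?_⟩
    subst hV
    exact (IsFractionRing.comap_isAlgebraic_iff (A := Algebra.adjoin M (Set.range z))
      (K := IntermediateField.adjoin M (Set.range z)) (C := K)).2 halg
  have h2 := hb.lift_cardinalMk_eq_trdeg
  rw [Cardinal.lift_id, Cardinal.lift_id] at h2
  rw [← h2]
  simp

/-- **The ring of the product of the pencils in its field of fractions.** -/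
theorem frac_bb (hind : AlgebraicIndependent M (fun o : Option (Fin r) => o.elim w x))
    {f : Fin r → M[X]}
    (hd : ∀ i, 0 < (f i).natDegree) (hy : ∀ i, y i ^ 2 = aeval (x i) (f i) + w)
    (htop : IntermediateField.adjoin M (insert w (Set.range x ∪ Set.range y)) = ⊤)
    {A : Type} [CommRing A] [IsDomain A] [Algebra A M] [IsFractionRing A M] (fA : Fin r → A[X])
    (hfA : ∀ i, (fA i).map (algebraMap A M) = f i) :
    ∃ φ : BB fA →+* K, φ.comp (cst fA) = (algebraMap M K).comp (algebraMap A M) ∧ φ (wB fA) = w ∧
      Function.Injective φ ∧ @IsFractionRing (BB fA) _ K _ φ.toAlgebra := by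
  obtain ⟨hx, hw⟩ := indep_split hind
  obtain ⟨F, V, xF, wV, hxF, hwV, hwtr, hgen, hcinj, hy', htop', halg⟩ := setup hx hw hd hy htop
  have hcM : CharZero F := charZero_of_injective_algebraMap (algebraMap M F).injective
  have hcV : CharZero V := charZero_of_injective_algebraMap (algebraMap F V).injective
  set ψ : A →+* K := (algebraMap M K).comp (algebraMap A M) with hψ
  have hyA : ∀ i, y i ^ 2 = eval₂ ψ (x i) (fA i) + w := by
    intro i
    rw [hy, ← hfA, aeval_def, eval₂_map]
  -- the field `V` as an algebra over the polynomials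
  let ψV : A →+* V := (algebraMap F V).comp ((algebraMap M F).comp (algebraMap A M))
  let _ : Algebra (MvPolynomial (Option (Fin r)) A) V :=
    (MvPolynomial.eval₂Hom ψV (fun o : Option (Fin r) => o.elim wV fun i => algebraMap F V (xF i))).toAlgebra
  let _ : Algebra (MvPolynomial (Option (Fin r)) A) K :=
    (MvPolynomial.eval₂Hom ψ (fun o : Option (Fin r) => o.elim w x)).toAlgebra
  have halV : ∀ p, algebraMap (MvPolynomial (Option (Fin r)) A) V p =
    MvPolynomial.eval₂Hom ψV (fun o => o.elim wV fun i => algebraMap F V (xF i)) p := fun p => rfl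
  have halK : ∀ p, algebraMap (MvPolynomial (Option (Fin r)) A) K p =
    MvPolynomial.eval₂Hom ψ (fun o => o.elim w x) p := fun p => rfl
  have htower : IsScalarTower (MvPolynomial (Option (Fin r)) A) V K := by
    refine IsScalarTower.of_algebraMap_eq' ?_
    show MvPolynomial.eval₂Hom ψ (fun o : Option (Fin r) => o.elim w x) = (algebraMap V K).comp
      (MvPolynomial.eval₂Hom ψV (fun o : Option (Fin r) => o.elim wV fun i => algebraMap F V (xF i)))
    apply MvPolynomial.ringHom_ext
    · intro a
      rw [RingHom.comp_apply, MvPolynomial.coe_eval₂Hom, MvPolynomial.coe_eval₂Hom,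
        MvPolynomial.eval₂_C, MvPolynomial.eval₂_C]
      rfl
    · rintro (_ | i)
      · rw [RingHom.comp_apply, MvPolynomial.coe_eval₂Hom, MvPolynomial.coe_eval₂Hom,
          MvPolynomial.eval₂_X, MvPolynomial.eval₂_X]
        exact hwV.symm
      · rw [RingHom.comp_apply, MvPolynomial.coe_eval₂Hom, MvPolynomial.coe_eval₂Hom,
          MvPolynomial.eval₂_X, MvPolynomial.eval₂_X]
        exact (hxF i).symm
  have hKinj : Function.Injective (algebraMap (MvPolynomial (Option (Fin r)) A) K) := by
    have h1 : (algebraMap (MvPolynomial (Option (Fin r)) A) K) =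
        (MvPolynomial.aeval (fun o : Option (Fin r) => o.elim w x) :
          MvPolynomial (Option (Fin r)) M →ₐ[M] K).toRingHom.comp (MvPolynomial.map (algebraMap A M)) := by
      show MvPolynomial.eval₂Hom ψ (fun o : Option (Fin r) => o.elim w x) = _
      apply MvPolynomial.ringHom_ext
      · intro a
        simp [hψ]
      · intro o
        simp
    rw [h1]
    exact (algebraicIndependent_iff_injective_aeval.1 hind).comp
      (MvPolynomial.map_injective _ (IsFractionRing.injective A M))
  have hVinj : Function.Injective (algebraMap (MvPolynomial (Option (Fin r)) A) V) := by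
    intro p q hpq
    apply hKinj
    rw [IsScalarTower.algebraMap_apply (MvPolynomial (Option (Fin r)) A) V K p,
      IsScalarTower.algebraMap_apply (MvPolynomial (Option (Fin r)) A) V K q, hpq]
  have hwAV : ∀ i, algebraMap (MvPolynomial (Option (Fin r)) A) V (wA fA i) =
      algebraMap F V (aeval (xF i) (f i)) + wV := by
    intro i
    rw [halV, wA, map_add, hom_eval₂]
    congr 1
    · rw [← hfA, aeval_def, eval₂_map, hom_eval₂]
      congr 1
      · ext a
        simp [ψV]
      · simp
    · simp
  have hwAK : ∀ i, y i ^ 2 = algebraMap (MvPolynomial (Option (Fin r)) A) K (wA fA i) := by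
    intro i
    rw [IsScalarTower.algebraMap_apply (MvPolynomial (Option (Fin r)) A) V K (wA fA i), hwAV, hy']
  have hns := ns hwtr hgen hcinj
  have hinj := lift_inj (P := MvPolynomial (Option (Fin r)) A) (V := V) (K := K) hVinj
    (w := wA fA) hwAK two_ne_zero (fun S hS h => hns S hS (by
      rw [Finset.prod_congr rfl fun i _ => hwAV i] at h
      exact h))
  set φ : BB fA →+* K := (liftR (wA fA) y hwAK : RR (wA fA) →ₐ[_] K).toRingHom with hφ
  have hbase : ∀ p, φ (algebraMap (MvPolynomial (Option (Fin r)) A) (BB fA) p) =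
      MvPolynomial.eval₂Hom ψ (fun o => o.elim w x) p := fun p =>
    (liftR (wA fA) y hwAK).commutes p
  have hφc : φ.comp (cst fA) = ψ := by
    refine RingHom.ext fun a => ?_
    have h := hbase (MvPolynomial.C a)
    rw [MvPolynomial.coe_eval₂Hom, MvPolynomial.eval₂_C] at h
    exact h
  have hφw : φ (wB fA) = w := by
    have h := hbase (MvPolynomial.X none)
    rw [MvPolynomial.coe_eval₂Hom, MvPolynomial.eval₂_X] at h
    exact h
  have hφx : ∀ i, φ (xB fA i) = x i := by
    intro i
    have h := hbase (MvPolynomial.X (some i))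
    rw [MvPolynomial.coe_eval₂Hom, MvPolynomial.eval₂_X] at h
    exact h
  have hφy : ∀ i, φ (yR (wA fA) i) = y i := fun i => liftR_y (wA fA) y hwAK i
  refine ⟨φ, hφc, hφw, hinj, ?_⟩
  let _ : Algebra (BB fA) K := φ.toAlgebra
  refine frac_of_closure hinj ?_
  set N : Subfield K := Subfield.closure (Set.range (algebraMap (BB fA) K)) with hN
  have hmem : ∀ z : BB fA, φ z ∈ N := fun z => Subfield.subset_closure ⟨z, rfl⟩
  have hM : ∀ m : M, algebraMap M K m ∈ N := by
    intro m
    obtain ⟨a, b, -, rfl⟩ := IsFractionRing.div_surjective (A := A) m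
    rw [map_div₀]
    have h1 : ∀ a : A, algebraMap M K (algebraMap A M a) ∈ N := by
      intro a
      have h2 := hmem (cst fA a)
      have h3 : φ (cst fA a) = ψ a := congrArg (fun g : A →+* K => g a) hφc
      rw [h3] at h2
      exact h2
    exact div_mem (h1 a) (h1 b)
  have hle : IntermediateField.adjoin M (insert w (Set.range x ∪ Set.range y)) ≤
      Subfield.toIntermediateField N hM := by
    rw [IntermediateField.adjoin_le_iff]
    rintro a (rfl | ⟨i, rfl⟩ | ⟨i, rfl⟩)
    · have h2 := hmem (wB fA)
      rw [hφw] at h2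
      exact h2
    · have h2 := hmem (xB fA i)
      rw [hφx] at h2
      exact h2
    · have h2 := hmem (yR (wA fA) i)
      rw [hφy] at h2
      exact h2
  rw [eq_top_iff]
  intro z _
  have hz : z ∈ IntermediateField.adjoin M (insert w (Set.range x ∪ Set.range y)) := by
    rw [htop]
    trivial
  exact hle hz

end

end Pool.Agent.R410.BA
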