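import Pool.Agent.TH958.FP.RankAbs
import Pool.Agent.TH958.FP.Ring

/-!
# Groups with commuting involutions, and the sign changes of a multiquadratic extension
-/

set_option autoImplicit false
set_option linter.all false

namespace Pool.Agent.R410.BA

open Finset
open Pool.Agent.TH958.FP (sign_decomp free_of RR yR yR_sq liftR liftR_y RR_expand lin_indep sg sg_y)

section
variable {A : Type} [AddCommGroup A] {r : ℕ}

/-- A group with commuting involutions, all simultaneous eigenvectors of which lie in the given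
subgroups. -/
theorem free_of_sum (σ : Fin r → A →+ A) (hcomm : ∀ i j a, σ i (σ j a) = σ j (σ i a))
    (hinv : ∀ i a, σ i (σ i a) = a) (H : Fin r → AddSubgroup A) (ρ : Fin r → ℕ)
    (hH : ∀ i, Module.Free ℤ (H i) ∧ Module.Finite ℤ (H i) ∧ Module.finrank ℤ (H i) = ρ i)
    (hneg : ∀ i, ∀ a ∈ H i, σ i a = -a) (hfix : ∀ i j, i ≠ j → ∀ a ∈ H j, σ i a = a)
    (heig : ∀ a, (∀ j, σ j a = a ∨ σ j a = -a) → a = 0 ∨ ∃ i, a ∈ H i) :
    Module.Free ℤ A ∧ Module.Finite ℤ A ∧ Module.finrank ℤ A = ∑ i, ρ i := by
  classical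
  have hf : ∀ i, Module.Free ℤ (H i) := fun i => (hH i).1
  have hfi : ∀ i, Module.Finite ℤ (H i) := fun i => (hH i).2.1
  have htf : ∀ i, ∀ a ∈ H i, 2 • a = 0 → a = 0 := by
    intro i a ha h2
    have h3 : (2 : ℕ) • (⟨a, ha⟩ : H i) = 0 := Subtype.ext h2
    have hnt : Module.IsTorsionFree ℤ (H i) := inferInstance
    have h4 : (2 : ℤ) • (⟨a, ha⟩ : H i) = 0 := by
      rw [← h3]
      exact_mod_cast rfl
    have h5 := (smul_eq_zero.1 h4).resolve_left (by norm_num)
    exact congrArg Subtype.val h5
  have hfixed : ∀ a, (∀ j, σ j a = a) → a = 0 := by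
    intro a ha
    rcases heig a (fun j => Or.inl (ha j)) with h | ⟨i, hi⟩
    · exact h
    · refine htf i a hi ?_
      have h1 := hneg i a hi
      rw [ha] at h1
      rw [two_smul]
      nth_rewrite 2 [h1]
      exact add_neg_cancel a
  let b : ∀ i, Module.Basis (Fin (ρ i)) ℤ (H i) := fun i =>
    (Module.finBasis ℤ (H i)).reindex (finCongr (hH i).2.2)
  let P : (Σ i, Fin (ρ i)) → A := fun w => (b w.1 w.2 : A)
  have hind : LinearIndependent ℤ P := by
    rw [Fintype.linearIndependent_iff]
    intro g hg
    rw [Fintype.sum_sigma] at hg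
    set h : Fin r → A := fun i => ∑ k, g ⟨i, k⟩ • (b i k : A) with hh
    have hmem : ∀ i, h i ∈ H i := fun i => sum_mem fun k _ =>
      (H i).zsmul_mem (b i k).2 _
    have hg' : ∑ i, h i = 0 := hg
    have h0 : ∀ j, h j = 0 := by
      intro j
      refine htf j _ (hmem j) ?_
      have h1 := congrArg (σ j) hg'
      rw [map_sum, map_zero] at h1
      have h2 : ∑ i, (h i - σ j (h i)) = 0 := by
        rw [sum_sub_distrib, hg', h1, sub_zero]
      rw [sum_eq_single j] at h2
      · rw [hneg j _ (hmem j), sub_neg_eq_add, ← two_smul ℕ] at h2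
        exact h2
      · intro i _ hij
        rw [hfix j i (Ne.symm hij) _ (hmem i), sub_self]
      · intro hn
        exact (hn (mem_univ j)).elim
    rintro ⟨i, k⟩
    have h2 : ∑ k, g ⟨i, k⟩ • b i k = 0 := by
      apply Subtype.ext
      have h3 := h0 i
      rw [AddSubgroup.val_finsetSum]
      exact h3
    exact Fintype.linearIndependent_iff.1 (b i).linearIndependent (fun k => g ⟨i, k⟩) h2 k
  have h2t : ∀ a : A, 2 • a = 0 → a = 0 := by
    intro T hT
    by_contra hne
    have key : ∀ l : Finset (Fin r), ∃ T' : A, T' ≠ 0 ∧ 2 • T' = 0 ∧ ∀ j ∈ l, σ j T' = T' := by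
      intro l
      induction l using Finset.induction_on with
      | empty => exact ⟨T, hne, hT, by simp⟩
      | insert i l hi ih =>
        obtain ⟨T', h1, h2, h3⟩ := ih
        by_cases h4 : T' + σ i T' = 0
        · refine ⟨T', h1, h2, ?_⟩
          intro j hj
          rcases mem_insert.1 hj with rfl | hj
          · have h5 : σ j T' = -T' := by
              rw [eq_neg_iff_add_eq_zero, add_comm]
              exact h4
            rw [h5, neg_eq_iff_add_eq_zero, ← two_smul ℕ]
            exact h2
          · exact h3 j hj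
        · refine ⟨T' + σ i T', h4, ?_, ?_⟩
          · rw [smul_add, ← map_nsmul, h2, map_zero, add_zero]
          · intro j hj
            rcases mem_insert.1 hj with rfl | hj
            · rw [map_add, hinv, add_comm]
            · rw [map_add, hcomm, h3 j hj]
    obtain ⟨T', h1, h2, h3⟩ := key univ
    exact h1 (hfixed T' fun j => h3 j (mem_univ j))
  have hsp : ∀ Q : A, (2 ^ r) • Q ∈ Submodule.span ℤ (Set.range P) := by
    intro Q
    have h1 := sign_decomp σ hcomm hinv univ Q
    rw [card_univ, Fintype.card_fin] at h1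
    have h2 : AddSubgroup.closure {b : A | ∀ i ∈ univ, σ i b = b ∨ σ i b = -b} ≤
        (Submodule.span ℤ (Set.range P)).toAddSubgroup := by
      rw [AddSubgroup.closure_le]
      intro a ha
      rcases heig a (fun j => ha j (mem_univ j)) with h | ⟨i, hi⟩
      · rw [h]
        exact zero_mem _
      · have h3 : a = ∑ k, (b i).repr ⟨a, hi⟩ k • (b i k : A) := by
          have h4 := congrArg (fun z : H i => (z : A)) ((b i).sum_repr ⟨a, hi⟩)
          simp only at h4
          rw [AddSubgroup.val_finsetSum] at h4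
          exact h4.symm
        rw [h3]
        exact sum_mem fun k _ => Submodule.smul_mem _ _ (Submodule.subset_span ⟨⟨i, k⟩, rfl⟩)
    exact h2 h1
  have hcard : Fintype.card (Σ i, Fin (ρ i)) = ∑ i, ρ i := by
    rw [Fintype.card_sigma]
    simp
  let e : Fin (∑ i, ρ i) ≃ (Σ i, Fin (ρ i)) := (Fintype.equivFinOfCardEq hcard).symm
  refine free_of (fun k => P (e k)) (hind.comp _ e.injective) h2t r ?_
  intro a
  have h1 : Set.range (fun k => P (e k)) = Set.range P := e.surjective.range_comp P
  rw [h1]
  exact hsp a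

end

section
variable {V K : Type} [Field V] [Field K] [Algebra V K] {r : ℕ} {y : Fin r → K} {u : Fin r → V}

/-- the products of the square roots are linearly independent -/
theorem lift_inj {P : Type} [CommRing P] [Algebra P V] [Algebra P K] [IsScalarTower P V K]
    (hPV : Function.Injective (algebraMap P V)) {w : Fin r → P}
    (hy : ∀ i, y i ^ 2 = algebraMap P K (w i)) (h2 : (2 : V) ≠ 0)
    (hs : ∀ S : Finset (Fin r), S.Nonempty → ¬ IsSquare (∏ i ∈ S, algebraMap P V (w i)))
    [Algebra.IsAlgebraic V K] : Function.Injective (liftR w y hy) := by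
  classical
  rw [injective_iff_map_eq_zero]
  intro x hx
  obtain ⟨c, rfl⟩ := RR_expand w x
  have h1 := lin_indep (V := V) (Ω := K) (η := y)
    (w := fun i => algebraMap P V (w i)) h2 (fun i => by
      rw [hy, IsScalarTower.algebraMap_apply P V K]) univ
    (fun S _ hS => hs S hS) (fun S => algebraMap P V (c S)) (by
      rw [powerset_univ]
      rw [map_sum] at hx
      rw [← hx]
      refine sum_congr rfl fun S _ => ?_
      rw [map_mul, map_prod, AlgHom.commutes, IsScalarTower.algebraMap_apply P V K]
      congr 1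
      exact prod_congr rfl fun i _ => (liftR_y w y hy i).symm)
  refine sum_eq_zero fun S _ => ?_
  have h3 := h1 S (by rw [powerset_univ]; exact mem_univ _)
  rw [map_eq_zero_iff _ hPV] at h3
  rw [h3, map_zero, zero_mul]

/-- the sign changes -/
theorem exists_sign (hy : ∀ i, y i ^ 2 = algebraMap V K (u i)) (h2 : (2 : V) ≠ 0)
    (hs : ∀ S : Finset (Fin r), S.Nonempty → ¬ IsSquare (∏ i ∈ S, u i))
    (htop : Algebra.adjoin V (Set.range y) = ⊤) [Algebra.IsAlgebraic V K] :
    ∃ σ : Fin r → (K →ₐ[V] K), ∀ j i, σ j (y i) = if i = j then -y i else y i := by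
  classical
  have hinj : Function.Injective (liftR u y hy) := lift_inj (P := V) (V := V)
    (fun a b h => h) hy h2 hs
  have hsurj : Function.Surjective (liftR u y hy) := by
    rw [← AlgHom.range_eq_top, eq_top_iff, ← htop, Algebra.adjoin_le_iff]
    rintro _ ⟨i, rfl⟩
    exact ⟨yR u i, liftR_y u y hy i⟩
  let e := AlgEquiv.ofBijective (liftR u y hy) ⟨hinj, hsurj⟩
  have he : ∀ i, e (yR u i) = y i := fun i => liftR_y u y hy i
  have he' : ∀ i, e.symm (y i) = yR u i := fun i => by
    rw [AlgEquiv.symm_apply_eq, he]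
  refine ⟨fun j => (e : RR u →ₐ[V] K).comp ((sg u j).comp (e.symm : K →ₐ[V] RR u)), fun j i => ?_⟩
  show e (sg u j (e.symm (y i))) = _
  rw [he', sg_y]
  split_ifs
  · rw [map_neg, he]
  · rw [he]

end

end Pool.Agent.R410.BA
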