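import Mathlib

/-!
# Irreducible polynomials stay irreducible in a purely transcendental extension
-/

set_option autoImplicit false
set_option linter.all false

open Polynomial

namespace Pool.Agent.R410.BA

/-- monic irreducible polynomials stay irreducible in an extension with a retraction -/
theorem irr_retract {S T : Type} [CommRing S] [IsDomain S] [CommRing T] [IsDomain T] (j : S →+* T)
    (ρ : T →+* S) (hρ : ρ.comp j = RingHom.id S) {h : S[X]} (hm : h.Monic) (hirr : Irreducible h) :
    Irreducible (h.map j) := by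
  have hback : ∀ p : S[X], (p.map j).map ρ = p := by
    intro p
    rw [Polynomial.map_map, hρ, Polynomial.map_id]
  rw [(hm.map j).irreducible_iff_natDegree]
  refine ⟨fun h1 => ?_, fun a b ha hb hab => ?_⟩
  · have h2 := congrArg (Polynomial.map ρ) h1
    rw [hback, Polynomial.map_one] at h2
    exact hirr.not_isUnit (by rw [h2]; exact isUnit_one)
  · have h2 := congrArg (Polynomial.map ρ) hab
    rw [hback, Polynomial.map_mul] at h2
    rcases hirr.isUnit_or_isUnit h2.symm with hu | hu
    · left
      rw [← ha.natDegree_map ρ]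
      exact natDegree_eq_zero_of_isUnit hu
    · right
      rw [← hb.natDegree_map ρ]
      exact natDegree_eq_zero_of_isUnit hu

section
variable {M K : Type} [Field M] [Field K] [Algebra M K] {r : ℕ} {x : Fin r → K}

/-- the ring of polynomials in the `x_i` -/
theorem frac_mv (hx : AlgebraicIndependent M x) (F : IntermediateField M K)
    (hF : F = IntermediateField.adjoin M (Set.range x)) (xF : Fin r → F)
    (hxF : ∀ i, (xF i : K) = x i) :
    @IsFractionRing (MvPolynomial (Fin r) M) _ F _
      (MvPolynomial.aeval xF : MvPolynomial (Fin r) M →ₐ[M] F).toRingHom.toAlgebra := by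
  let _ : Algebra (MvPolynomial (Fin r) M) F :=
    (MvPolynomial.aeval xF : MvPolynomial (Fin r) M →ₐ[M] F).toRingHom.toAlgebra
  have hval : ∀ p : MvPolynomial (Fin r) M, ((algebraMap (MvPolynomial (Fin r) M) F p : F) : K) =
      MvPolynomial.aeval x p := by
    intro p
    show ((MvPolynomial.aeval xF p : F) : K) = _
    have h1 : F.val.comp (MvPolynomial.aeval xF) = MvPolynomial.aeval x := by
      apply MvPolynomial.algHom_ext
      intro i
      rw [AlgHom.comp_apply, MvPolynomial.aeval_X, MvPolynomial.aeval_X]
      exact hxF i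
    exact congrArg (fun g : MvPolynomial (Fin r) M →ₐ[M] K => g p) h1
  have hinj : Function.Injective (algebraMap (MvPolynomial (Fin r) M) F) := by
    intro p q hpq
    apply algebraicIndependent_iff_injective_aeval.1 hx
    rw [← hval, ← hval, hpq]
  have hf : FaithfulSMul (MvPolynomial (Fin r) M) F :=
    (faithfulSMul_iff_algebraMap_injective _ _).2 hinj
  refine IsFractionRing.of_field (MvPolynomial (Fin r) M) F fun z => ?_
  have hz : (z : K) ∈ IntermediateField.adjoin M (Set.range x) := hF ▸ z.2
  obtain ⟨p, q, hpq⟩ := (IntermediateField.mem_adjoin_range_iff M x _).1 hz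
  refine ⟨p, q, Subtype.ext ?_⟩
  show (z : K) = ((algebraMap (MvPolynomial (Fin r) M) F p : F) : K) /
    ((algebraMap (MvPolynomial (Fin r) M) F q : F) : K)
  rw [hval, hval]
  exact hpq

/-- **Irreducibility.** -/
theorem irr_F (hx : AlgebraicIndependent M x) (F : IntermediateField M K)
    (hF : F = IntermediateField.adjoin M (Set.range x)) (xF : Fin r → F)
    (hxF : ∀ i, (xF i : K) = x i) (i : Fin r) {h : M[X][X]} (hm : h.Monic) (hirr : Irreducible h) :
    Irreducible (h.map ((aeval (xF i) : M[X] →ₐ[M] F) : M[X] →+* F)) := by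
  classical
  let _ : Algebra (MvPolynomial (Fin r) M) F :=
    (MvPolynomial.aeval xF : MvPolynomial (Fin r) M →ₐ[M] F).toRingHom.toAlgebra
  have hfr : IsFractionRing (MvPolynomial (Fin r) M) F := frac_mv hx F hF xF hxF
  let j : M[X] →ₐ[M] MvPolynomial (Fin r) M := aeval (MvPolynomial.X i)
  let ρ : MvPolynomial (Fin r) M →ₐ[M] M[X] := MvPolynomial.aeval fun k => if k = i then X else 0
  have hρ : (ρ : MvPolynomial (Fin r) M →+* M[X]).comp (j : M[X] →+* MvPolynomial (Fin r) M) =
      RingHom.id M[X] := by
    have h1 : ρ.comp j = AlgHom.id M M[X] := by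
      apply Polynomial.algHom_ext
      rw [AlgHom.comp_apply]
      show ρ (aeval (MvPolynomial.X i : MvPolynomial (Fin r) M) (X : M[X])) = _
      rw [aeval_X]
      show MvPolynomial.aeval _ (MvPolynomial.X i) = _
      rw [MvPolynomial.aeval_X, if_pos rfl]
      rfl
    exact congrArg (fun g : M[X] →ₐ[M] M[X] => (g : M[X] →+* M[X])) h1
  have h1 := irr_retract (j : M[X] →+* MvPolynomial (Fin r) M)
    (ρ : MvPolynomial (Fin r) M →+* M[X]) hρ hm hirr
  rw [(hm.map _).irreducible_iff_irreducible_map_fraction_map (K := F), Polynomial.map_map] at h1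
  have h2 : (algebraMap (MvPolynomial (Fin r) M) F).comp (j : M[X] →+* MvPolynomial (Fin r) M) =
      ((aeval (xF i) : M[X] →ₐ[M] F) : M[X] →+* F) := by
    have h3 : (MvPolynomial.aeval xF : MvPolynomial (Fin r) M →ₐ[M] F).comp j = aeval (xF i) := by
      apply Polynomial.algHom_ext
      rw [AlgHom.comp_apply, aeval_X]
      rw [MvPolynomial.aeval_X, aeval_X]
    exact congrArg (fun g : M[X] →ₐ[M] F => (g : M[X] →+* F)) h3
  rwa [h2] at h1

end

end Pool.Agent.R410.BA
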