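import Pool.Agent.H126G.RankG
import Pool.Agent.R410.LW.Bez
import Pool.Agent.R410.BS.Sm

/-!
# No points on the twists by products of at least two of the `f_i(x_i) + w`
-/

set_option autoImplicit false
set_option linter.all false

open Polynomial

namespace Pool.Agent.R410.BA

open Pool.Agent.H126R3 (cubicDisc)

section
variable {M : Type} [Field M] [CharZero M]

/-- the element of `M[w]` in the ideal of `f(t) + w` and its derivative -/
theorem bez_pencil (f : M[X]) (hf : f.Monic) (hd : 0 < f.natDegree) :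
    ∃ (u v : M[X][X]) (D : M[X]), D ≠ 0 ∧
      u * (f.map C + C X) + v * derivative (f.map C + C X) = C D := by
  set h : M[X][X] := f.map C + C X with hh
  have hdeg : (f.map C : M[X][X]).natDegree = f.natDegree := natDegree_map_eq_of_injective C_injective f
  have hlt : (C X : M[X][X]).natDegree < (f.map C : M[X][X]).natDegree := by
    rw [hdeg, natDegree_C]
    exact hd
  have hm : h.Monic := (hf.map C).add_of_left (degree_lt_degree hlt)
  have hirr : Irreducible (h.map (mapRingHom (RingHom.id M))) := by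
    rw [mapRingHom_id, Polynomial.map_id]
    have h1 : h = Bivariate.swap (R := M) (X - C (-f)) := by
      rw [map_sub, Bivariate.swap_Y, Bivariate.swap_C, Polynomial.map_neg, sub_neg_eq_add, hh, add_comm]
    rw [h1, MulEquiv.irreducible_iff]
    exact (prime_X_sub_C _).irreducible
  exact Pool.Agent.R410.LW.bezout (ι := RingHom.id M) (fun a b h => h) hm hirr

/-- the discriminant -/
noncomputable def dG {S : Type} [CommRing S] (f₀ : S[X]) : S[X] :=
  cubicDisc (C (f₀.coeff 2)) (C (f₀.coeff 1)) (C (f₀.coeff 0) + X)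

theorem dG_map {S T : Type} [CommRing S] [CommRing T] (θ : S →+* T) (f₀ : S[X]) :
    (dG f₀).map θ = dG (f₀.map θ) := by
  unfold dG cubicDisc
  simp only [Polynomial.map_sub, Polynomial.map_add, Polynomial.map_mul, Polynomial.map_pow,
    Polynomial.map_C, Polynomial.map_X, Polynomial.map_ofNat, coeff_map]

theorem dG_ne (f₀ : M[X]) : dG f₀ ≠ 0 := by
  intro h
  have h1 := congrArg (fun p => p.coeff 2) h
  have key : ∀ a b c : M, (C a ^ 2 * C b ^ 2 - 4 * C b ^ 3 - 4 * C a ^ 3 * (C c + X) -
      27 * (C c + X) ^ 2 + 18 * C a * C b * (C c + X) : M[X]).coeff 2 = -27 := by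
    intro a b c
    have e : (C a ^ 2 * C b ^ 2 - 4 * C b ^ 3 - 4 * C a ^ 3 * (C c + X) -
      27 * (C c + X) ^ 2 + 18 * C a * C b * (C c + X) : M[X]) =
        C (-27) * X ^ 2 + C (-4 * a ^ 3 - 54 * c + 18 * a * b) * X +
          C (a ^ 2 * b ^ 2 - 4 * b ^ 3 - 4 * a ^ 3 * c - 27 * c ^ 2 + 18 * a * b * c) := by
      simp only [C_mul, C_pow, C_sub, C_add, C_neg]
      simp only [C_ofNat]
      ring
    have e2 : ∀ α β γ : M, (C α * X ^ 2 + C β * X + C γ : M[X]).coeff 2 = α := by
      intro α β γ
      simp [coeff_X, coeff_C]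
    rw [e, e2]
  have h2 : (dG f₀).coeff 2 = -27 := key _ _ _
  rw [h2] at h1
  norm_num at h1

variable {L V : Type} [Field L] [Algebra M L] [Field V] [Algebra L[X][X] V] [IsFractionRing L[X][X] V]

/-- **No points on the twists.** -/
theorem no_point (f₀ : M[X]) (f : M[X]) (hf : f.Monic)
    (hd : 0 < f.natDegree) {ι : Type} [DecidableEq ι] (T : Finset ι) (c : ι → L) (j : ι) (hj : j ∈ T)
    (htr : Transcendental M (c j)) (hne : ∀ k ∈ T, k ≠ j → c k ≠ c j) (x v : V) (hv : v ≠ 0)
    (heq : algebraMap L[X][X] V ((X + C (f.map (algebraMap M L))) * ∏ k ∈ T, (X + C (C (c k)))) * v ^ 2 =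
      x ^ 3 + algebraMap L[X][X] V (C (C (algebraMap M L (f₀.coeff 2)))) * x ^ 2 +
        algebraMap L[X][X] V (C (C (algebraMap M L (f₀.coeff 1)))) * x +
          algebraMap L[X][X] V (C (C (algebraMap M L (f₀.coeff 0))) + X)) : False := by
  classical
  have hcL : CharZero L := charZero_of_injective_algebraMap (algebraMap M L).injective
  obtain ⟨u, v', D, hD, hbez⟩ := bez_pencil f hf hd
  set θ : M →+* L := algebraMap M L with hθ
  set q : L[X] := X - C (-c j) with hq
  set δ : L[X] := ∏ k ∈ T, (X - C (-c k)) with hδ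
  have hqp : Prime q := prime_X_sub_C _
  have htr' : Transcendental M (-c j) := by
    intro h
    exact htr (by simpa using h.neg)
  have hndvd : ∀ G : M[X], G ≠ 0 → ¬ q ∣ G.map θ := by
    intro G hG h
    rw [hq, dvd_iff_isRoot, IsRoot.def, eval_map_algebraMap] at h
    exact htr' ⟨G, hG, h⟩
  have hone : ¬ q ∣ 1 := by
    have := hndvd 1 one_ne_zero
    rwa [Polynomial.map_one] at this
  set h : L[X][X] := (f.map θ).map C + C X with hh
  have hmap : ((f.map C + C X : M[X][X]).map (mapRingHom θ)) = h := by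
    rw [Polynomial.map_add, Polynomial.map_C, coe_mapRingHom, Polynomial.map_X, Polynomial.map_map, hh,
      Polynomial.map_map]
    congr 2
    ext a
    simp
  have hdeg : ((f.map θ).map C : L[X][X]).natDegree = f.natDegree := by
    rw [natDegree_map_eq_of_injective C_injective, hf.natDegree_map]
  have hlt : (C X : L[X][X]).natDegree < ((f.map θ).map C : L[X][X]).natDegree := by
    rw [hdeg, natDegree_C]
    exact hd
  have hhm : h.Monic := ((hf.map θ).map C).add_of_left (degree_lt_degree hlt)
  have hhd : h.natDegree = f.natDegree := by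
    rw [hh, natDegree_add_eq_left_of_natDegree_lt hlt, hdeg]
  have hbezL : (u.map (mapRingHom θ)) * h + (v'.map (mapRingHom θ)) * derivative h = C (D.map θ) := by
    have h1 := congrArg (Polynomial.map (mapRingHom θ)) hbez
    rw [Polynomial.map_add, Polynomial.map_mul, Polynomial.map_mul, ← derivative_map, hmap,
      Polynomial.map_C] at h1
    exact h1
  have hsX : ∀ a : L, Bivariate.swap (R := L) (X + C (C a)) = C (X - C (-a)) := by
    intro a
    rw [map_add, Bivariate.swap_Y, Bivariate.swap_C, Polynomial.map_C, ← C_add, C_neg, sub_neg_eq_add]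
  refine Pool.Agent.H126G.no_field' (Bivariate.swap (R := L)).toRingEquiv
    (C (θ (f₀.coeff 2))) (C (θ (f₀.coeff 1))) (C (θ (f₀.coeff 0)) + X) q δ (D.map θ)
    (C (C (θ (f₀.coeff 2)))) (C (C (θ (f₀.coeff 1)))) (C (C (θ (f₀.coeff 0))) + X)
    ((X + C (f.map θ)) * ∏ k ∈ T, (X + C (C (c k)))) h (u.map (mapRingHom θ)) (v'.map (mapRingHom θ))
    ?_ ?_ ?_ ?_ hqp ?_ ?_ ?_ ?_ ?_ hbezL ?_ ?_ V x v hv heq
  · show Bivariate.swap (R := L) _ = _
    rw [Bivariate.swap_C, Polynomial.map_C]
  · show Bivariate.swap (R := L) _ = _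
    rw [Bivariate.swap_C, Polynomial.map_C]
  · show Bivariate.swap (R := L) _ = _
    rw [map_add, Bivariate.swap_C, Polynomial.map_C, Bivariate.swap_Y, ← C_add]
  · show Bivariate.swap (R := L) _ = _
    rw [map_mul, map_add, Bivariate.swap_Y, Bivariate.swap_C, map_prod,
      Finset.prod_congr rfl fun k _ => hsX (c k), ← map_prod, ← hδ, hh]
    ring
  · have := hndvd 2 two_ne_zero
    rwa [Polynomial.map_ofNat] at this
  · have h1 := hndvd (dG f₀) (dG_ne f₀)
    rw [dG_map] at h1
    unfold dG at h1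
    simp only [coeff_map] at h1
    exact h1
  · rw [hhd]
    exact hd
  · rw [hhm.leadingCoeff]
    exact hone
  · exact hndvd D hD
  · exact Finset.prod_ne_zero_iff.2 fun k _ => X_sub_C_ne_zero _
  · have h1 : δ = q * ∏ k ∈ T.erase j, (X - C (-c k)) := by
      rw [hδ, hq]
      exact (Finset.mul_prod_erase T (fun k => X - C (-c k)) hj).symm
    have h2 : ¬ q ∣ ∏ k ∈ T.erase j, (X - C (-c k)) := by
      rw [Prime.dvd_finsetProd_iff hqp]
      rintro ⟨k, hk, hd⟩
      rw [hq, dvd_iff_isRoot, IsRoot.def, eval_sub, eval_X, eval_C, sub_eq_zero, neg_inj] at hd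
      exact hne k (Finset.mem_of_mem_erase hk) (Finset.ne_of_mem_erase hk) hd.symm
    have h3 : multiplicity q δ = 1 := by
      apply multiplicity_eq_of_dvd_of_not_dvd
      · rw [pow_one, h1]
        exact dvd_mul_right _ _
      · rw [h1, pow_succ, pow_one]
        intro h3
        exact h2 ((mul_dvd_mul_iff_left hqp.ne_zero).1 h3)
    rw [h3]
    exact odd_one

end

end Pool.Agent.R410.BA
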