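import Pool.Agent.R410.BA.Grp
import Pool.Agent.R410.BA.Ns
import Pool.Agent.R410.BA.Cls2
import Pool.Agent.TH958.FP.Transfer
import Pool.Agent.TH958.FP.Multi

/-!
# The group of points over a multiquadratic extension
-/

set_option autoImplicit false
set_option linter.all false
set_option maxHeartbeats 1000000

namespace Pool.Agent.R410.BA

open Polynomial Finset
open Pool.Agent.Y707.PC (up)
open Pool.Agent.R410.BS (cub cub_Δ cub_map)
open Pool.Agent.TH958.FP (pmap pmap_some eigen)
open WeierstrassCurve WeierstrassCurve.Affine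

/-- The points of a subfield. -/
theorem exists_hom {N K : Type} [Field N] [Field K] [DecidableEq N] [DecidableEq K] (f : N →+* K)
    (W : WeierstrassCurve N) (W' : WeierstrassCurve K) (h : W.map f = W') :
    ∃ g : W.toAffine.Point →+ W'.toAffine.Point, Function.Injective g ∧
      (∀ P, g P = 0 ∨ ∃ (X Y : N) (h : W'.toAffine.Nonsingular (f X) (f Y)),
        g P = Point.some _ _ h) ∧
      (∀ (X Y : N) (h : W'.toAffine.Nonsingular (f X) (f Y)), ∃ P, g P = Point.some _ _ h) := by
  subst h
  refine ⟨pmap f W, ?_, ?_, ?_⟩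
  · rw [injective_iff_map_eq_zero]
    rintro (_ | ⟨X, Y, h⟩) h0
    · rfl
    · rw [pmap_some] at h0
      exact absurd h0 (Point.some_ne_zero _)
  · rintro (_ | ⟨X, Y, h⟩)
    · exact Or.inl rfl
    · exact Or.inr ⟨X, Y, _, pmap_some f W h⟩
  · intro X Y h
    have h1 : W.toAffine.Nonsingular X Y := (W.toAffine.map_nonsingular f.injective ..).mp h
    exact ⟨Point.some _ _ h1, pmap_some f W h1⟩

theorem some_congr {K : Type} [Field K] {W : WeierstrassCurve K} {X Y X' Y' : K}
    {h : W.toAffine.Nonsingular X Y} (hX : X = X') (hY : Y = Y') :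
    ∃ h' : W.toAffine.Nonsingular X' Y', Point.some _ _ h = Point.some _ _ h' := by
  subst hX hY
  exact ⟨h, rfl⟩

theorem aeval_mem' {F K : Type} [Field F] [Field K] [Algebra F K] (N : IntermediateField F K) {t : K}
    (ht : t ∈ N) (p : F[X]) : aeval t p ∈ N := by
  have h : algebraMap N K (aeval (⟨t, ht⟩ : N) p) = aeval t p := by
    rw [← aeval_algebraMap_apply]
    rfl
  rw [← h]
  exact SetLike.coe_mem _

theorem cub_shift {S : Type} [CommRing S] (p : S[X]) (a b c : S) (h : b - a = c) :
    cub (p - C a) b = cub p c := by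
  unfold cub
  apply WeierstrassCurve.ext
  · rfl
  · show (p - C a).coeff 2 = p.coeff 2
    rw [coeff_sub, coeff_C, if_neg (by norm_num), sub_zero]
  · rfl
  · show (p - C a).coeff 1 = p.coeff 1
    rw [coeff_sub, coeff_C, if_neg (by norm_num), sub_zero]
  · show (p - C a).coeff 0 + b = p.coeff 0 + c
    rw [coeff_sub, coeff_C_zero, ← h]
    ring

section
variable {F V K : Type} [Field F] [Field V] [Field K] [Algebra F V] [Algebra V K] [Algebra F K]
  [IsScalarTower F V K] {r : ℕ}

open Classical in
/-- **The group of points over a multiquadratic extension of `F(w)`.** -/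
theorem rank_abs [CharZero F] {w : V} (hw : Transcendental F w) (hV : Gen F w)
    {c : Fin r → F} (hc : Function.Injective c) {y : Fin r → K}
    (hy : ∀ i, y i ^ 2 = algebraMap V K (algebraMap F V (c i) + w))
    (htop : Algebra.adjoin V (Set.range y) = ⊤)
    {D : F[X]} (hD : D.Monic) (hD3 : D.natDegree = 3)
    {J : Fin r → Type} [∀ i, Fintype (J i)] {φ : ∀ i, J i → F[X]} (hφ : ∀ i j, Irreducible (φ i j))
    (hm : ∀ i j, (φ i j).Monic) (hinj : ∀ i, Function.Injective (φ i))
    (hprod : ∀ i, ∏ j, φ i j = D - C (c i))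
    (noP : ∀ S : Finset (Fin r), 1 < S.card → ∀ x v : V, v ≠ 0 →
      (∏ i ∈ S, (algebraMap F V (c i) + w)) * v ^ 2 =
        x ^ 3 + algebraMap F V (D.coeff 2) * x ^ 2 + algebraMap F V (D.coeff 1) * x +
          (algebraMap F V (D.coeff 0) + w) → False)
    (E : WeierstrassCurve K) (hE : E = cub (D.map (algebraMap F K)) (algebraMap V K w)) :
    Module.Free ℤ E.toAffine.Point ∧ Module.Finite ℤ E.toAffine.Point ∧
    Module.finrank ℤ E.toAffine.Point = ∑ i, (Fintype.card (J i) - 1) := by
  have hcV : CharZero V := charZero_of_injective_algebraMap (algebraMap F V).injective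
  have hcK : CharZero K := charZero_of_injective_algebraMap (algebraMap F K).injective
  have h2V : (2 : V) ≠ 0 := two_ne_zero
  have hns := ns hw hV hc
  -- algebraicity
  have halg : Algebra.IsAlgebraic V K := by
    have h1 : Algebra.IsAlgebraic V (Algebra.adjoin V (Set.range y)) := by
      rw [← Subalgebra.isAlgebraic_iff, Algebra.isAlgebraic_adjoin_iff]
      rintro _ ⟨i, rfl⟩
      refine (IsIntegral.of_pow (n := 2) (by norm_num) ?_).isAlgebraic
      rw [hy]
      exact isIntegral_algebraMap
    rw [htop] at h1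
    constructor
    intro z
    have h2 := h1.isAlgebraic (⟨z, trivial⟩ : (⊤ : Subalgebra V K))
    obtain ⟨p, hp, hz⟩ := h2
    refine ⟨p, hp, ?_⟩
    have h3 := congrArg (⊤ : Subalgebra V K).val hz
    rw [← aeval_algHom_apply, map_zero] at h3
    exact h3
  obtain ⟨σ, hσ⟩ := exists_sign (u := fun i => algebraMap F V (c i) + w) hy h2V hns htop
  -- the curve as a base change
  obtain ⟨W, hW⟩ : ∃ W : WeierstrassCurve V, W = cub (D.map (algebraMap F V)) w := ⟨_, rfl⟩
  have hE' : E = W⁄K := by
    rw [hE, hW]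
    show _ = (cub (D.map (algebraMap F V)) w).map (algebraMap V K)
    rw [cub_map, Polynomial.map_map, ← IsScalarTower.algebraMap_eq]
  have hEm : E = W.map (algebraMap V K) := hE'
  have a1 : (W⁄K).a₁ = 0 := by rw [← hE', hE]; rfl
  have a3 : (W⁄K).a₃ = 0 := by rw [← hE', hE]; rfl
  have a2 : (W⁄K).a₂ = algebraMap F K (D.coeff 2) := by
    rw [← hE', hE]
    exact coeff_map _ _
  have a4 : (W⁄K).a₄ = algebraMap F K (D.coeff 1) := by
    rw [← hE', hE]
    exact coeff_map _ _
  have a6 : (W⁄K).a₆ = algebraMap F K (D.coeff 0) + algebraMap V K w := by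
    rw [← hE', hE]
    show (D.map (algebraMap F K)).coeff 0 + _ = _
    rw [coeff_map]
  rw [hE']
  clear hEm
  -- commutation
  have hcommσ : ∀ i j, (σ i).comp (σ j) = (σ j).comp (σ i) := by
    intro i j
    apply AlgHom.ext_of_adjoin_eq_top htop
    rintro _ ⟨k, rfl⟩
    change σ i (σ j (y k)) = σ j (σ i (y k))
    rw [hσ, hσ]
    split_ifs with h1 h2 h2
    · rw [map_neg, map_neg, hσ, hσ, if_pos h1, if_pos h2]
    · rw [map_neg, hσ, hσ, if_pos h1, if_neg h2]
    · rw [map_neg, hσ, hσ, if_neg h1, if_pos h2]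
    · rw [hσ, hσ, if_neg h1, if_neg h2]
  have hinvσ : ∀ i z, σ i (σ i z) = z := by
    intro i z
    have h : (σ i).comp (σ i) = AlgHom.id V K := by
      apply AlgHom.ext_of_adjoin_eq_top htop
      rintro _ ⟨k, rfl⟩
      change σ i (σ i (y k)) = y k
      rw [hσ]
      split_ifs with h1
      · rw [map_neg, hσ, if_pos h1, neg_neg]
      · rw [hσ, if_neg h1]
    exact congrArg (fun f => f z) h
  let τ : Fin r → ((W⁄K).toAffine.Point →+ (W⁄K).toAffine.Point) := fun j =>
    Point.map (W' := W) (σ j)
  have hcomm : ∀ i j a, τ i (τ j a) = τ j (τ i a) := by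
    intro i j a
    show Point.map (W' := W) (σ i) (Point.map (W' := W) (σ j) a) = _
    rw [Point.map_map, hcommσ, ← Point.map_map]
  have hinv : ∀ i a, τ i (τ i a) = a := by
    intro i a
    rcases a with _ | ⟨X, Y, h⟩
    · rfl
    · change Point.some _ _ _ = Point.some _ _ _
      simp only [hinvσ]
  -- points with coordinates in `V` vanish
  have hzeroV : ∀ (X Y : V) (h : (W⁄K).toAffine.Nonsingular (algebraMap V K X) (algebraMap V K Y)),
      False := by
    intro X Y h
    obtain ⟨g, g1, g2, g3⟩ := exists_hom (algebraMap V K) W (W⁄K) rfl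
    obtain ⟨P, hP⟩ := g3 X Y h
    have h0 : P = 0 := by
      subst hW
      exact points_zero hw hV hD hD3 P
    rw [h0, map_zero] at hP
    exact absurd hP.symm (Point.some_ne_zero _)
  have hyw : ∀ i, y i ^ 2 = algebraMap V K ((fun i => algebraMap F V (c i) + w) i) := hy
  have eig := fun s z hz => eigen (σ := σ) h2V hyw htop hσ s z hz
  have hfix0 : ∀ a, (∀ j, τ j a = a) → a = 0 := by
    intro a ha
    rcases a with _ | ⟨X, Y, h⟩
    · rfl
    exfalso
    have hX : ∀ j, σ j X = X := fun j => ((Point.some.injEq ..).mp (ha j)).1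
    have hY : ∀ j, σ j Y = Y := fun j => ((Point.some.injEq ..).mp (ha j)).2
    obtain ⟨X', hX'⟩ := eig ∅ X (fun j => by simpa using hX j)
    obtain ⟨Y', hY'⟩ := eig ∅ Y (fun j => by simpa using hY j)
    rw [prod_empty, mul_one] at hX' hY'
    subst hX' hY'
    exact hzeroV X' Y' h
  -- the subfields
  let N : Fin r → IntermediateField F K := fun i => IntermediateField.adjoin F {y i}
  let ω : ∀ i, N i := fun i => IntermediateField.AdjoinSimple.gen F (y i)
  have hωK : ∀ i, ((ω i : N i) : K) = y i := fun i => IntermediateField.AdjoinSimple.coe_gen F (y i)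
  have hytr : ∀ i, Transcendental F (y i) := by
    intro i h
    have h1 : IsAlgebraic F (y i ^ 2) := h.pow 2
    rw [hy] at h1
    have h2 : IsAlgebraic F (algebraMap F V (c i) + w) :=
      (isAlgebraic_algebraMap_iff (algebraMap V K).injective).1 h1
    have h3 : IsAlgebraic F w := by
      have h4 := h2.sub (isAlgebraic_algebraMap (A := V) (c i))
      rwa [add_sub_cancel_left] at h4
    exact hw h3
  have hωtr : ∀ i, Transcendental F (ω i) := by
    intro i h
    apply hytr i
    have h1 := h.algebraMap (A := K)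
    rwa [IntermediateField.algebraMap_apply, hωK] at h1
  have hwK : ∀ i, algebraMap V K w = y i ^ 2 - algebraMap F K (c i) := by
    intro i
    rw [hy, map_add, ← IsScalarTower.algebraMap_apply, add_sub_cancel_left]
  have hVN : ∀ (i : Fin r) (z : V), algebraMap V K z ∈ N i := by
    intro i z
    obtain ⟨p, q, hq, hpq⟩ := hV z
    have hwN : algebraMap V K w ∈ N i := by
      rw [hwK i]
      exact sub_mem (pow_mem (IntermediateField.mem_adjoin_simple_self F _) 2)
        (IntermediateField.algebraMap_mem _ _)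
    have hpN : ∀ p : F[X], aeval (algebraMap V K w) p ∈ N i := fun p =>
      aeval_mem' (N i) hwN p
    have h1 : algebraMap V K z * aeval (algebraMap V K w) q = aeval (algebraMap V K w) p := by
      rw [aeval_algebraMap_apply, aeval_algebraMap_apply, ← map_mul, hpq]
    have h2 : aeval (algebraMap V K w) q ≠ 0 := by
      rw [aeval_algebraMap_apply]
      exact (_root_.map_ne_zero _).2 hq
    rw [eq_div_of_mul_eq h2 h1]
    exact div_mem (hpN p) (hpN q)
  -- the subgroups
  have hsub : ∀ i, ∃ g : (cub (up (∏ j, φ i j)) ((ω i) ^ 2) : WeierstrassCurve (N i)).toAffine.Point →+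
      (W⁄K).toAffine.Point, Function.Injective g ∧
      (∀ P, g P = 0 ∨ ∃ (X Y : N i) (h : (W⁄K).toAffine.Nonsingular (algebraMap (N i) K X)
        (algebraMap (N i) K Y)), g P = Point.some _ _ h) ∧
      (∀ (X Y : N i) (h : (W⁄K).toAffine.Nonsingular (algebraMap (N i) K X)
        (algebraMap (N i) K Y)), ∃ P, g P = Point.some _ _ h) := by
    intro i
    refine exists_hom (algebraMap (N i) K) _ _ ?_
    rw [cub_map, ← hE', hE, hprod]
    have e1 : ((up (D - C (c i)) : (N i)[X]).map (algebraMap (N i) K)) =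
        D.map (algebraMap F K) - C (algebraMap F K (c i)) := by
      show ((D - C (c i)).map (algebraMap F (N i))).map _ = _
      rw [Polynomial.map_map, ← IsScalarTower.algebraMap_eq, Polynomial.map_sub, Polynomial.map_C]
    rw [e1, map_pow]
    have e2 : algebraMap (N i) K (ω i) = y i := hωK i
    rw [e2]
    exact cub_shift _ _ _ _ (hwK i).symm
  choose g g1 g2 g3 using hsub
  have hfixN : ∀ i j, i ≠ j → ∀ z : N j, σ i (algebraMap (N j) K z) = algebraMap (N j) K z := by
    intro i j hij z
    obtain ⟨p, q, hq, hpq⟩ := gen_of_mem (y j) z.2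
    have hp : ∀ p : F[X], σ i (aeval (y j) p) = aeval (y j) p := by
      intro p
      have h1 : σ i (aeval (y j) p) = ((σ i).restrictScalars F) (aeval (y j) p) := rfl
      rw [h1, ← aeval_algHom_apply]
      congr 2
      show σ i (y j) = y j
      rw [hσ, if_neg (Ne.symm hij)]
    have h1 := congrArg (σ i) hpq
    rw [map_mul, hp, hp, ← hpq] at h1
    exact mul_right_cancel₀ hq h1
  have hfix : ∀ i j, i ≠ j → ∀ a ∈ (g j).range, τ i a = a := by
    rintro i j hij _ ⟨P, rfl⟩
    rcases g2 j P with h | ⟨X, Y, h, hP⟩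
    · rw [h, map_zero]
    · rw [hP]
      show Point.some _ _ _ = Point.some _ _ _
      simp only [Point.some.injEq]
      exact ⟨hfixN i j hij X, hfixN i j hij Y⟩
  have hmapN : ∀ i (z : N i), ∃ z' : N i, σ i (algebraMap (N i) K z) = algebraMap (N i) K z' := by
    intro i z
    obtain ⟨p, q, hq, hpq⟩ := gen_of_mem (y i) z.2
    have hp : ∀ p : F[X], σ i (aeval (y i) p) = aeval (-y i) p := by
      intro p
      have h1 : σ i (aeval (y i) p) = ((σ i).restrictScalars F) (aeval (y i) p) := rfl
      rw [h1, ← aeval_algHom_apply]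
      congr 2
      show σ i (y i) = -y i
      rw [hσ, if_pos rfl]
    have hmemN : ∀ p : F[X], aeval (-y i) p ∈ N i := fun p =>
      aeval_mem' (N i) (neg_mem (IntermediateField.mem_adjoin_simple_self F (y i))) p
    have h1 := congrArg (σ i) hpq
    rw [map_mul, hp, hp] at h1
    have h2 : aeval (-y i) q ≠ 0 := by
      rw [← hp]
      exact (_root_.map_ne_zero _).2 hq
    refine ⟨⟨_, div_mem (hmemN p) (hmemN q)⟩, ?_⟩
    exact eq_div_of_mul_eq h2 h1
  have hneg : ∀ i, ∀ a ∈ (g i).range, τ i a = -a := by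
    intro i a ha
    rw [eq_neg_iff_add_eq_zero, add_comm]
    apply hfix0
    intro j
    rw [map_add]
    by_cases hij : j = i
    · rw [hij, hinv, add_comm]
    · rw [hcomm, hfix j i hij a ha]
  have hfree : ∀ i, Module.Free ℤ (g i).range ∧ Module.Finite ℤ (g i).range ∧
      Module.finrank ℤ (g i).range = Fintype.card (J i) - 1 := by
    intro i
    have hd3 : (∏ j, φ i j).natDegree = 3 := by
      rw [hprod, natDegree_sub_C, hD3]
    obtain ⟨f1, f2, f3⟩ := points_free (hωtr i) (gen_gen (y i)) (hφ i) (hm i) (hinj i) hd3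
    let e : (cub (up (∏ j, φ i j)) ((ω i) ^ 2) : WeierstrassCurve (N i)).toAffine.Point ≃+
        (g i).range := AddMonoidHom.ofInjective (g1 i)
    let eZ : (cub (up (∏ j, φ i j)) ((ω i) ^ 2) : WeierstrassCurve (N i)).toAffine.Point ≃ₗ[ℤ]
        (g i).range := e.toIntLinearEquiv
    refine ⟨Module.Free.of_equiv eZ, Module.Finite.equiv eZ, ?_⟩
    rw [← eZ.finrank_eq]
    exact f3
  refine free_of_sum τ hcomm hinv (fun i => (g i).range) (fun i => Fintype.card (J i) - 1) hfree hneg
    hfix ?_
  -- eigenvectors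
  intro a ha
  rcases a with _ | ⟨X, Y, h⟩
  · exact Or.inl rfl
  have hX : ∀ j, σ j X = X := by
    intro j
    rcases ha j with h1 | h1
    · exact ((Point.some.injEq ..).mp h1).1
    · rw [Point.neg_some] at h1
      exact ((Point.some.injEq ..).mp h1).1
  have hY : ∀ j, σ j Y = Y ∨ σ j Y = -Y := by
    intro j
    rcases ha j with h1 | h1
    · exact Or.inl ((Point.some.injEq ..).mp h1).2
    · rw [Point.neg_some] at h1
      right
      have h2 := ((Point.some.injEq ..).mp h1).2
      rw [negY, a1, a3] at h2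
      rw [h2]
      ring
  set s : Finset (Fin r) := univ.filter fun j => σ j Y ≠ Y with hs
  have hYs : ∀ j, σ j Y = if j ∈ s then -Y else Y := by
    intro j
    split_ifs with hj
    · exact (hY j).resolve_left (by simpa [hs] using hj)
    · by_contra hcon
      exact hj (by simpa [hs] using hcon)
  obtain ⟨v, hv⟩ := eig s Y hYs
  obtain ⟨x, hx⟩ := eig ∅ X (fun j => by simpa using hX j)
  rw [prod_empty, mul_one] at hx
  by_cases hv0 : v = 0
  · exfalso
    rw [hv0, map_zero, zero_mul] at hv
    have hv' : Y = algebraMap V K 0 := by rw [hv, map_zero]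
    subst hx hv'
    exact hzeroV x 0 h
  rcases Nat.lt_or_ge 1 s.card with hc1 | hc1
  · exfalso
    refine noP s hc1 x v hv0 ?_
    apply (algebraMap V K).injective
    have h3 := (equation_iff _ _).1 h.1
    rw [a1, a2, a3, a4, a6, hx, hv] at h3
    have h4 : (∏ i ∈ s, y i) ^ 2 = algebraMap V K (∏ i ∈ s, (algebraMap F V (c i) + w)) := by
      rw [← prod_pow, map_prod]
      exact prod_congr rfl fun i _ => hy i
    rw [map_mul, ← h4]
    simp only [map_add, map_mul, map_pow]
    rw [← IsScalarTower.algebraMap_apply, ← IsScalarTower.algebraMap_apply,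
      ← IsScalarTower.algebraMap_apply]
    linear_combination h3
  · rcases Nat.le_one_iff_eq_zero_or_eq_one.1 hc1 with h0 | h1
    · exfalso
      rw [card_eq_zero] at h0
      rw [h0, prod_empty, mul_one] at hv
      subst hx hv
      exact hzeroV x v h
    · obtain ⟨i, hi⟩ := card_eq_one.1 h1
      rw [hi, prod_singleton] at hv
      right
      refine ⟨i, ?_⟩
      have hYN : Y ∈ N i := by
        rw [hv]
        exact mul_mem (hVN i v) (IntermediateField.mem_adjoin_simple_self F _)
      have hXN : X ∈ N i := by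
        rw [hx]
        exact hVN i x
      obtain ⟨P, hP⟩ := g3 i ⟨X, hXN⟩ ⟨Y, hYN⟩ h
      exact ⟨P, hP⟩

end

end Pool.Agent.R410.BA
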