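import Pool.Agent.R410.BA.Ns
import Pool.Agent.R410.LW.Bez

/-!
# `F(w) = Frac L[t][w]`
-/

set_option autoImplicit false
set_option linter.all false

open Polynomial

namespace Pool.Agent.R410.BA

section
variable {L F V : Type} [Field L] [Field F] [Field V] [Algebra L F] [Algebra F V]

/-- the ring homomorphism `L[t][w] → F(w)` -/
noncomputable def ev2 (t : F) (w : V) : L[X][X] →+* V :=
  eval₂RingHom ((algebraMap F V).comp ((aeval t : L[X] →ₐ[L] F) : L[X] →+* F)) w

theorem ev2_eq (t : F) (w : V) (P : L[X][X]) :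
    ev2 t w P = aeval w (P.map ((aeval t : L[X] →ₐ[L] F) : L[X] →+* F)) := by
  unfold ev2
  rw [coe_eval₂RingHom, aeval_def, eval₂_map]

theorem ev2_C (t : F) (w : V) (p : L[X]) : ev2 t w (C p) = algebraMap F V (aeval t p) := by
  unfold ev2
  rw [coe_eval₂RingHom, eval₂_C]
  rfl

theorem ev2_X (t : F) (w : V) : ev2 (L := L) t w X = w := by
  unfold ev2
  rw [coe_eval₂RingHom, eval₂_X]

theorem frac_two {t : F} (ht : Transcendental L t) (hgt : Gen L t) {w : V} (hw : Transcendental F w)
    (hgw : Gen F w) : @IsFractionRing L[X][X] _ V _ (ev2 t w).toAlgebra := by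
  let _ : Algebra L[X][X] V := (ev2 t w).toAlgebra
  have hal : ∀ P : L[X][X], algebraMap L[X][X] V P = ev2 t w P := fun P => rfl
  have htinj : Function.Injective ((aeval t : L[X] →ₐ[L] F) : L[X] →+* F) :=
    transcendental_iff_injective.1 ht
  have hinj : Function.Injective (algebraMap L[X][X] V) := by
    intro P Q h
    rw [hal, hal, ev2_eq, ev2_eq] at h
    exact Polynomial.map_injective _ htinj (transcendental_iff_injective.1 hw h)
  have hf : FaithfulSMul L[X][X] V := (faithfulSMul_iff_algebraMap_injective _ _).2 hinj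
  -- the fraction field `F` of `L[t]`
  let _ : Algebra L[X] F := ((aeval t : L[X] →ₐ[L] F) : L[X] →+* F).toAlgebra
  have hff : FaithfulSMul L[X] F := (faithfulSMul_iff_algebraMap_injective _ _).2 htinj
  have hfr : IsFractionRing L[X] F := by
    refine IsFractionRing.of_field L[X] F fun z => ?_
    obtain ⟨p, q, hq, hpq⟩ := hgt z
    exact ⟨p, q, eq_div_of_mul_eq hq hpq⟩
  have hcl : ∀ p : F[X], ∃ (d : L[X]) (P : L[X][X]), d ≠ 0 ∧
      ev2 t w P = algebraMap F V (aeval t d) * aeval w p := by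
    intro p
    obtain ⟨d, P, hd, hP⟩ := Pool.Agent.R410.LW.clear (R := L[X]) (K := F) p
    refine ⟨d, P, hd, ?_⟩
    rw [ev2_eq]
    have h1 : P.map ((aeval t : L[X] →ₐ[L] F) : L[X] →+* F) = C (aeval t d) * p := hP
    rw [h1, map_mul, aeval_C]
  refine IsFractionRing.of_field L[X][X] V fun z => ?_
  obtain ⟨p, q, hq, hpq⟩ := hgw z
  obtain ⟨d1, P1, hd1, hP1⟩ := hcl p
  obtain ⟨d2, P2, hd2, hP2⟩ := hcl q
  have hd : ∀ d : L[X], d ≠ 0 → algebraMap F V (aeval t d) ≠ 0 := by
    intro d hd h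
    rw [map_eq_zero_iff _ (algebraMap F V).injective] at h
    exact hd (transcendental_iff_injective.1 ht (by rw [h, map_zero]))
  refine ⟨P1 * C d2, P2 * C d1, ?_⟩
  rw [hal, hal, map_mul, map_mul, ev2_C, ev2_C, hP1, hP2]
  have h1 := hd d1 hd1
  have h2 := hd d2 hd2
  rw [← hpq]
  field_simp

end

end Pool.Agent.R410.BA
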