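import Pool.Agent.R410.BA.Rk
import Pool.Agent.R410.BA.Two
import Pool.Agent.R410.BA.NoP
import Pool.Agent.R410.BA.Irr

/-!
# The group of points over the function field of a product of pencils
-/

set_option autoImplicit false
set_option linter.all false
set_option maxHeartbeats 1000000

namespace Pool.Agent.R410.BA

open Polynomial Finset
open Pool.Agent.R410.BS (cub cub_Δ cub_map)
open WeierstrassCurve WeierstrassCurve.Affine
open scoped IntermediateField.algebraAdjoinAdjoin

section
variable {M L F V : Type} [Field M] [CharZero M] [Field L] [Algebra M L] [Field F] [Algebra L F]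
  [Algebra M F] [IsScalarTower M L F] [Field V] [Algebra F V]

theorem no_pt2 {t : F} (ht : Transcendental L t) (hgt : Gen L t) {w : V} (hw : Transcendental F w)
    (hgw : Gen F w) (f₀ f : M[X]) (hf : f.Monic) (hd : 0 < f.natDegree) {ι : Type} [DecidableEq ι]
    (T : Finset ι) (c : ι → L) (j : ι) (hj : j ∈ T) (htr : Transcendental M (c j))
    (hne : ∀ k ∈ T, k ≠ j → c k ≠ c j) (x v : V) (hv : v ≠ 0)
    (heq : ((algebraMap F V (aeval t f) + w) * ∏ k ∈ T, (algebraMap F V (algebraMap L F (c k)) + w)) *
        v ^ 2 = x ^ 3 + algebraMap F V (algebraMap M F (f₀.coeff 2)) * x ^ 2 +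
          algebraMap F V (algebraMap M F (f₀.coeff 1)) * x +
          (algebraMap F V (algebraMap M F (f₀.coeff 0)) + w)) : False := by
  let _ : Algebra L[X][X] V := (ev2 t w).toAlgebra
  have hfr : IsFractionRing L[X][X] V := frac_two ht hgt hw hgw
  have hal : ∀ P : L[X][X], algebraMap L[X][X] V P = ev2 t w P := fun P => rfl
  refine no_point f₀ f hf hd T c j hj htr hne x v hv ?_
  rw [hal, hal, hal, hal, map_mul, map_add, map_prod, map_add, ev2_X, ev2_C, ev2_C, ev2_C, ev2_C,
    aeval_map_algebraMap, aeval_C, aeval_C, aeval_C, ← IsScalarTower.algebraMap_apply M L F,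
    ← IsScalarTower.algebraMap_apply M L F, ← IsScalarTower.algebraMap_apply M L F]
  rw [← heq, add_comm w]
  congr 2
  refine prod_congr rfl fun k _ => ?_
  rw [map_add, ev2_X, ev2_C, aeval_C, add_comm]

end

section
variable {M K : Type} [Field M] [CharZero M] [Field K] [Algebra M K] {r : ℕ} {x y : Fin r → K} {w : K}

theorem pencils_inj (hx : AlgebraicIndependent M x) {f : Fin r → M[X]}
    (hd : ∀ i, 0 < (f i).natDegree) : Function.Injective fun i => aeval (x i) (f i) := by
  classical
  intro i j hij
  by_contra hne
  have h1 : MvPolynomial.aeval x (aeval (MvPolynomial.X i : MvPolynomial (Fin r) M) (f i)) =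
      MvPolynomial.aeval x (aeval (MvPolynomial.X j : MvPolynomial (Fin r) M) (f j)) := by
    rw [← aeval_algHom_apply, ← aeval_algHom_apply, MvPolynomial.aeval_X, MvPolynomial.aeval_X]
    exact hij
  have h2 := algebraicIndependent_iff_injective_aeval.1 hx h1
  have h3 := congrArg (MvPolynomial.aeval (fun k => if k = i then (X : M[X]) else 0)) h2
  rw [← aeval_algHom_apply, ← aeval_algHom_apply, MvPolynomial.aeval_X, MvPolynomial.aeval_X,
    if_pos rfl, if_neg (Ne.symm hne), aeval_X_left_apply] at h3
  have h4 : (aeval (0 : M[X]) (f j)).natDegree = 0 := by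
    have h5 : aeval (0 : M[X]) (f j) = C ((f j).eval 0) := by
      have h6 : (0 : M[X]) = algebraMap M M[X] 0 := (map_zero _).symm
      rw [h6, aeval_algebraMap_apply]
      rfl
    rw [h5, natDegree_C]
  rw [← h3] at h4
  exact absurd h4 (hd i).ne'

/-- fractions in a subfield -/
theorem gen_sub {L K : Type} [Field L] [Field K] [Algebra L K] {F : Type} [Field F] [Algebra L F]
    [Algebra F K] [IsScalarTower L F K] (t : F)
    (h : ∀ z : F, algebraMap F K z ∈ IntermediateField.adjoin L {algebraMap F K t}) : Gen L t := by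
  intro z
  obtain ⟨p, q, hq, hpq⟩ := gen_of_mem (algebraMap F K t) (h z)
  rw [aeval_algebraMap_apply] at hq hpq
  rw [aeval_algebraMap_apply, ← map_mul] at hpq
  exact ⟨p, q, fun h => hq (by rw [h, map_zero]), (algebraMap F K).injective hpq⟩

open Classical in
/-- **The group of points over the function field of a product of pencils.** -/
theorem rank_main (hx : AlgebraicIndependent M x)
    (hw : Transcendental (IntermediateField.adjoin M (Set.range x)) w)
    {f₀ : M[X]} (hf₀ : f₀.Monic) (h3 : f₀.natDegree = 3) {f : Fin r → M[X]} (hf : ∀ i, (f i).Monic)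
    (hd : ∀ i, 0 < (f i).natDegree) (hy : ∀ i, y i ^ 2 = aeval (x i) (f i) + w)
    (htop : IntermediateField.adjoin M (insert w (Set.range x ∪ Set.range y)) = ⊤)
    {J : Fin r → Type} [∀ i, Fintype (J i)] {h : ∀ i, J i → M[X][X]} (hirr : ∀ i j, Irreducible (h i j))
    (hm : ∀ i j, (h i j).Monic) (hinj : ∀ i, Function.Injective (h i))
    (hprod : ∀ i, ∏ j, h i j = f₀.map C - C (f i))
    (E : WeierstrassCurve K) (hE : E = cub (f₀.map (algebraMap M K)) w) :
    Module.Free ℤ E.toAffine.Point ∧ Module.Finite ℤ E.toAffine.Point ∧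
    Module.finrank ℤ E.toAffine.Point = ∑ i, (Fintype.card (J i) - 1) := by
  have hcK : CharZero K := charZero_of_injective_algebraMap (algebraMap M K).injective
  obtain ⟨F, hF⟩ : ∃ F : IntermediateField M K, F = IntermediateField.adjoin M (Set.range x) :=
    ⟨_, rfl⟩
  rw [← hF] at hw
  have hxm : ∀ i, x i ∈ F := fun i => hF ▸ IntermediateField.subset_adjoin M _ ⟨i, rfl⟩
  let xF : Fin r → F := fun i => ⟨x i, hxm i⟩
  have hxF : ∀ i, (xF i : K) = x i := fun i => rfl
  obtain ⟨V, hV⟩ : ∃ V : IntermediateField F K, V = IntermediateField.adjoin F {w} := ⟨_, rfl⟩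
  have hwm : w ∈ V := hV ▸ IntermediateField.mem_adjoin_simple_self F w
  let wV : V := ⟨w, hwm⟩
  have hwVK : algebraMap V K wV = w := rfl
  have hwtr : Transcendental F wV := by
    intro h1
    exact hw (h1.algebraMap (A := K))
  have hgen : Gen F wV := by
    refine gen_sub (K := K) wV fun z => ?_
    show (z : K) ∈ IntermediateField.adjoin F {w}
    rw [← hV]
    exact z.2
  let c : Fin r → F := fun i => aeval (xF i) (f i)
  have hcK' : ∀ i, algebraMap F K (c i) = aeval (x i) (f i) := fun i => by
    show algebraMap F K (aeval (xF i) (f i)) = _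
    rw [← aeval_algebraMap_apply]
    rfl
  have hcinj : Function.Injective c := by
    intro i j hij
    apply pencils_inj hx hd
    show aeval (x i) (f i) = aeval (x j) (f j)
    rw [← hcK', ← hcK', hij]
  have hy' : ∀ i, y i ^ 2 = algebraMap V K (algebraMap F V (c i) + wV) := by
    intro i
    rw [hy, map_add, ← IsScalarTower.algebraMap_apply, hcK', hwVK]
  -- the square roots generate `K` over `V`
  have htop' : Algebra.adjoin V (Set.range y) = ⊤ := by
    have hyint : ∀ z ∈ Set.range y, IsIntegral V z := by
      rintro _ ⟨i, rfl⟩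
      refine IsIntegral.of_pow (n := 2) (by norm_num) ?_
      rw [hy' i]
      exact isIntegral_algebraMap
    have h1 : IntermediateField.adjoin V (Set.range y) = ⊤ := by
      rw [eq_top_iff]
      intro z _
      have hz : z ∈ IntermediateField.adjoin M (insert w (Set.range x ∪ Set.range y)) := by
        rw [htop]
        trivial
      have hle : IntermediateField.adjoin M (insert w (Set.range x ∪ Set.range y)) ≤
          ((IntermediateField.adjoin V (Set.range y)).restrictScalars F).restrictScalars M := by
        rw [IntermediateField.adjoin_le_iff]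
        rintro a (rfl | ⟨i, rfl⟩ | ⟨i, rfl⟩)
        · exact IntermediateField.algebraMap_mem (IntermediateField.adjoin V (Set.range y)) wV
        · exact IntermediateField.algebraMap_mem (IntermediateField.adjoin V (Set.range y))
            (algebraMap F V (xF i))
        · exact IntermediateField.subset_adjoin V (Set.range y) ⟨i, rfl⟩
      exact hle hz
    rw [← IntermediateField.adjoin_toSubalgebra_of_isAlgebraic
      (fun z hz => (hyint z hz).isAlgebraic), h1]
    rfl
  have hinjF : ∀ i, Function.Injective ((aeval (xF i) : M[X] →ₐ[M] F) : M[X] →+* F) := by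
    intro i
    have h1 : Transcendental M (xF i) := by
      intro h1
      exact hx.transcendental i (h1.algebraMap (A := K))
    exact transcendental_iff_injective.1 h1
  refine rank_abs hwtr hgen hcinj hy' htop' (D := f₀.map (algebraMap M F)) (hf₀.map _)
    (by rw [hf₀.natDegree_map, h3])
    (φ := fun i j => (h i j).map ((aeval (xF i) : M[X] →ₐ[M] F) : M[X] →+* F))
    (fun i j => irr_F hx F hF xF hxF i (hm i j) (hirr i j)) (fun i j => (hm i j).map _)
    (fun i j j' hjj => hinj i (Polynomial.map_injective _ (hinjF i) hjj)) ?_ ?_ E ?_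
  · intro i
    rw [← Polynomial.map_prod, hprod, Polynomial.map_sub, Polynomial.map_C, Polynomial.map_map]
    congr 2
    ext a
    simp
  · intro S hS a v hv heq
    obtain ⟨j₀, hj₀⟩ := card_pos.1 (by omega : 0 < S.card)
    obtain ⟨j₁, hj₁⟩ := card_pos.1 (by rw [card_erase_of_mem hj₀]; omega : 0 < (S.erase j₀).card)
    have hLF : IntermediateField.adjoin M (x '' {j₀}ᶜ) ≤ F := by
      rw [hF]
      exact IntermediateField.adjoin.mono M _ _ (Set.image_subset_range _ _)
    obtain ⟨L, hL⟩ : ∃ L : IntermediateField M K, L = IntermediateField.adjoin M (x '' {j₀}ᶜ) :=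
      ⟨_, rfl⟩
    rw [← hL] at hLF
    let _ : Algebra L F := (IntermediateField.inclusion hLF).toRingHom.toAlgebra
    have hLFK : ∀ z : L, algebraMap F K (algebraMap L F z) = algebraMap L K z := fun z => rfl
    have _ : IsScalarTower M L F := IsScalarTower.of_algebraMap_eq fun z => rfl
    have _ : IsScalarTower L F K := IsScalarTower.of_algebraMap_eq fun z => rfl
    have hxL : ∀ k, k ≠ j₀ → x k ∈ L := fun k hk =>
      hL ▸ IntermediateField.subset_adjoin M _ ⟨k, hk, rfl⟩
    let xL : Fin r → L := fun k => if hk : k ≠ j₀ then ⟨x k, hxL k hk⟩ else 0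
    have hxLK : ∀ k, k ≠ j₀ → algebraMap L K (xL k) = x k := by
      intro k hk
      show algebraMap L K (if hk : k ≠ j₀ then ⟨x k, hxL k hk⟩ else 0) = x k
      rw [dif_pos hk]
      rfl
    let cL : Fin r → L := fun k => aeval (xL k) (f k)
    have hcL : ∀ k, k ≠ j₀ → algebraMap L F (cL k) = c k := by
      intro k hk
      apply (algebraMap F K).injective
      rw [hLFK, hcK']
      show algebraMap L K (aeval (xL k) (f k)) = _
      rw [← aeval_algebraMap_apply, hxLK k hk]
    have htrL : Transcendental L (xF j₀) := by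
      intro h1
      have h2 : IsAlgebraic L (x j₀) := h1.algebraMap (A := K)
      have h4 := hx.transcendental_adjoin (s := {j₀}ᶜ) (i := j₀) (by simp)
      subst hL
      apply h4
      exact (IsFractionRing.isAlgebraic_iff (Algebra.adjoin M (x '' {j₀}ᶜ))
        (IntermediateField.adjoin M (x '' {j₀}ᶜ)) K).2 h2
    have hgL : Gen L (xF j₀) := by
      refine gen_sub (K := K) (xF j₀) fun z => ?_
      have hz : (z : K) ∈ IntermediateField.adjoin M (Set.range x) := hF ▸ z.2
      have hle : IntermediateField.adjoin M (Set.range x) ≤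
          (IntermediateField.adjoin L {x j₀}).restrictScalars M := by
        rw [IntermediateField.adjoin_le_iff]
        rintro _ ⟨k, rfl⟩
        by_cases hk : k = j₀
        · rw [hk]
          exact IntermediateField.mem_adjoin_simple_self L (x j₀)
        · exact IntermediateField.algebraMap_mem (IntermediateField.adjoin L {x j₀})
            (⟨x k, hxL k hk⟩ : L)
      exact hle hz
    have hj₁' : j₁ ≠ j₀ := Finset.ne_of_mem_erase hj₁
    refine no_pt2 htrL hgL hwtr hgen f₀ (f j₀) (hf j₀) (hd j₀) (S.erase j₀) cL j₁ hj₁ ?_ ?_ a v hv ?_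
    · have h1 : Transcendental M (xL j₁) := by
        intro h1
        have h2 := h1.algebraMap (A := K)
        rw [hxLK j₁ hj₁'] at h2
        exact hx.transcendental j₁ h2
      exact h1.aeval_of_transcendental
        (Polynomial.transcendental (f j₁) (hd j₁).ne' (by rw [(hf j₁).leadingCoeff]; exact one_mem _))
    · intro k hk hne hck
      have h1 := congrArg (algebraMap L F) hck
      rw [hcL k (Finset.ne_of_mem_erase hk), hcL j₁ hj₁'] at h1
      exact hne (hcinj h1)
    · rw [coeff_map, coeff_map, coeff_map] at heq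
      rw [← heq, ← mul_prod_erase S _ hj₀]
      congr 2
      refine prod_congr rfl fun k hk => ?_
      rw [hcL k (Finset.ne_of_mem_erase hk)]
  · rw [hE, Polynomial.map_map, ← IsScalarTower.algebraMap_eq, hwVK]

end

end Pool.Agent.R410.BA
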